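import Pool.Agent.MP_a59382_lc.H18.Fw

/-!
Kronecker substitution over `F[X]`: blocks, substitution, blockwise products.
-/

set_option autoImplicit false
set_option linter.unusedSectionVars false

namespace Pool.Agent.MP_a59382_lc.H18

open Polynomial Finset

variable {F : Type} [Field F] [Finite F] {Γ : Type} [Ctx F[X] Γ]

/-- The Frobenius relation. -/
def Fr (T g h : F[X]) : Prop := ∃ n, T = X ^ Nat.card F ^ n ∧ h = g ^ Nat.card F ^ n

variable (F) in
/-- The two basic relations are diophantine. -/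
structure Base : Prop where
  fr : Dio F[X] fun x : F[X] × F[X] × F[X] => Fr x.1 x.2.1 x.2.2
  lt : Dio F[X] fun x : F[X] × F[X] => x.1.degree < x.2.degree

/-- Evaluation of a block sequence. -/
noncomputable def ev (U : F[X]) (W : ℕ) (y : ℕ → F[X]) : F[X] := ∑ k ∈ range W, y k * U ^ k

theorem two_le_card : 2 ≤ Nat.card F := Finite.one_lt_card

theorem pow_eq_expand (n : ℕ) (f : F[X]) : f ^ Nat.card F ^ n = expand F (Nat.card F ^ n) f := by
  have := Fintype.ofFinite F
  induction n with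
  | zero => simp
  | succ n ih =>
    rw [pow_succ, pow_mul, ih, mul_comm, ← expand_expand, Nat.card_eq_fintype_card,
      FiniteField.expand_card]

theorem dvd_expand_sub (Q : ℕ) (f : F[X]) : X ^ Q - X ∣ expand F Q f - f := by
  induction f using Polynomial.induction_on' with
  | add f g hf hg =>
    convert dvd_add hf hg using 1
    rw [map_add]
    ring
  | monomial n c =>
    rw [← C_mul_X_pow_eq_monomial, map_mul, map_pow, expand_C, expand_X, ← mul_sub]
    exact (sub_dvd_pow_sub_pow _ _ n).mul_left _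

theorem rem_eq {M a b : F[X]} (h : M ∣ a - b) (ha : a.degree < M.degree)
    (hb : b.degree < M.degree) : a = b :=
  sub_eq_zero.1 (eq_zero_of_dvd_of_degree_lt h ((degree_sub_le _ _).trans_lt (max_lt ha hb)))

theorem rem_eq' {M a b : F[X]} (h : M ∣ a - b) (ha : a.natDegree < M.natDegree)
    (hb : b.natDegree < M.natDegree) : a = b :=
  rem_eq h (degree_lt_degree ha) (degree_lt_degree hb)

theorem nd_ev {a : F[X]} {W D : ℕ} {y : ℕ → F[X]}
    (h : ∀ k < W, (y k).natDegree + k * a.natDegree ≤ D) : (ev a W y).natDegree ≤ D :=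
  natDegree_sum_le_of_forall_le _ _ fun k hk => natDegree_mul_le.trans
    ((Nat.add_le_add_left natDegree_pow_le _).trans (h k (mem_range.1 hk)))

theorem deg_ev {N W : ℕ} {y : ℕ → F[X]} (h : ∀ k < W, (y k).natDegree < N) :
    (ev (X ^ N) W y).degree < (X ^ (N * W) : F[X]).degree := by
  cases W with
  | zero => simp [ev]
  | succ W =>
    have h0 := h 0 W.succ_pos
    refine degree_lt_degree ((nd_ev (D := N * (W + 1) - 1) fun k hk => ?_).trans_lt ?_)
    · have := h k hk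
      have : k * N ≤ W * N := Nat.mul_le_mul_right _ (by omega)
      rw [natDegree_X_pow, Nat.mul_succ, mul_comm N W]
      omega
    · rw [natDegree_X_pow, Nat.mul_succ]
      omega

theorem ev_succ' (U : F[X]) (W : ℕ) (y : ℕ → F[X]) :
    ev U (W + 1) y = y 0 + U * ev U W fun k => y (k + 1) := by
  simp only [ev, sum_range_succ', mul_sum]
  rw [add_comm, pow_zero, mul_one]
  congr 1
  exact sum_congr rfl fun k _ => by ring

theorem ev_congr {U : F[X]} {W : ℕ} {y z : ℕ → F[X]} (h : ∀ k < W, y k = z k) :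
    ev U W y = ev U W z := sum_congr rfl fun k hk => by rw [h k (mem_range.1 hk)]

theorem ev_inj {N : ℕ} : ∀ {W : ℕ} {y z : ℕ → F[X]}, (∀ k < W, (y k).natDegree < N) →
    (∀ k < W, (z k).natDegree < N) → ev (X ^ N) W y = ev (X ^ N) W z → ∀ k < W, y k = z k := by
  intro W
  induction W with
  | zero => intro y z _ _ _ k hk; omega
  | succ W ih =>
    intro y z hy hz h k hk
    rw [ev_succ', ev_succ'] at h
    have h0 : y 0 = z 0 := rem_eq' (M := X ^ N) ⟨(ev (X ^ N) W fun k => z (k + 1)) -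
      ev (X ^ N) W fun k => y (k + 1), by linear_combination h⟩
      (by simpa using hy 0 W.succ_pos) (by simpa using hz 0 W.succ_pos)
    cases k with
    | zero => exact h0
    | succ k =>
      rw [h0, add_right_inj, mul_right_inj' (pow_ne_zero _ X_ne_zero)] at h
      exact ih (fun k hk => hy _ (by omega)) (fun k hk => hz _ (by omega)) h k (by omega)

theorem ex_ev {N : ℕ} (hN : 0 < N) : ∀ (W : ℕ) (Y : F[X]),
    Y.degree < (X ^ (N * W) : F[X]).degree →
      ∃ y : ℕ → F[X], (∀ k, (y k).natDegree < N) ∧ Y = ev (X ^ N) W y := by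
  intro W
  induction W with
  | zero =>
    intro Y h
    exact ⟨0, fun _ => by simpa using hN, by simpa [ev] using h⟩
  | succ W ih =>
    intro Y h
    have hm : (X ^ N : F[X]).Monic := monic_X_pow N
    obtain ⟨y, hy, e⟩ := ih (Y /ₘ X ^ N) (by
      by_cases h0 : Y /ₘ X ^ N = 0
      · rw [h0, degree_zero, degree_X_pow]
        exact WithBot.bot_lt_coe _
      have hY : Y ≠ 0 := fun e => h0 (by simp [e])
      refine degree_lt_degree ?_
      have h1 := natDegree_lt_natDegree hY h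
      have h2 : ¬ Y.degree < (X ^ N : F[X]).degree := fun e => h0 ((divByMonic_eq_zero_iff hm).2 e)
      have h3 := natDegree_le_natDegree (not_lt.1 h2)
      rw [natDegree_divByMonic _ hm]
      simp only [natDegree_X_pow, Nat.mul_succ] at h1 h3 ⊢
      omega)
    refine ⟨fun k => Nat.casesOn k (Y %ₘ X ^ N) y, fun k => ?_, ?_⟩
    · cases k with
      | zero =>
        simpa using natDegree_modByMonic_lt Y hm (by
          intro e
          have := congrArg natDegree e
          simp at this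
          omega)
      | succ k => exact hy k
    · rw [ev_succ']
      simp only [Nat.rec_zero]
      rw [← e, modByMonic_add_div]

theorem dio_ne : Dio F[X] fun x : F[X] => x ≠ 0 := by
  have : Dio F[X] fun x : F[X] => ∃ a b c : F[X], x * c = (1 - a * X) * (1 - b * (X + 1)) := by
    refine .ex (.ex (.ex (.eq ?_ ?_))) <;> fun_prop
  refine this.congr fun x => ⟨fun h => ?_, ?_⟩
  · obtain ⟨k, D, h1, rfl⟩ := WfDvdMonoid.max_power_factor h irreducible_X
    obtain ⟨u, v, h2⟩ := irreducible_X.coprime_iff_not_dvd.2 h1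
    have h3 : IsCoprime (X + 1 : F[X]) X := ⟨1, -1, by ring⟩
    obtain ⟨u', v', h4⟩ := h3.pow_right (n := k)
    exact ⟨u, u', v * v', by linear_combination (v' * X ^ k) * h2 + (1 - u * X) * h4⟩
  · rintro ⟨a, b, c, h⟩ rfl
    rw [zero_mul, eq_comm, mul_eq_zero] at h
    rcases h with h | h
    · simpa using congrArg (eval 0) h
    · simpa using congrArg (eval (-1)) h

/-- Substitution for the block variable. -/
def Sub (U P a Y r : F[X]) : Prop :=
  ∃ T₁ T₂ T Y' U' r' s s' : F[X], Fr T₁ T₁ T₂ ∧ U.natDegree < T₁.natDegree ∧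
    P.natDegree < T₁.natDegree ∧ a.natDegree < T₁.natDegree ∧
    (T₂ * T₂).natDegree < T.natDegree ∧ Fr T Y Y' ∧ Fr T U U' ∧ Y' - r' = (U' - a) * s ∧
    r'.natDegree < U'.natDegree ∧ r' - r = (T - X) * s' ∧ r.natDegree < T.natDegree

theorem sub_iff {N W : ℕ} (hN : 0 < N) {y : ℕ → F[X]} (hy : ∀ k < W, (y k).natDegree < N)
    (a r : F[X]) : Sub (X ^ N) (X ^ W) a (ev (X ^ N) W y) r ↔ r = ev a W y := by
  have key : ∀ Q₁ n : ℕ, N < Q₁ → W < Q₁ → a.natDegree < Q₁ →
      Q₁ * Q₁ + Q₁ * Q₁ < Nat.card F ^ n →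
      ((X ^ N) ^ Nat.card F ^ n - a ∣ ev (X ^ N) W y ^ Nat.card F ^ n -
        ev a W fun k => y k ^ Nat.card F ^ n) ∧
      (ev a W fun k => y k ^ Nat.card F ^ n).natDegree < N * Nat.card F ^ n ∧
      ((X ^ N) ^ Nat.card F ^ n - a).natDegree = N * Nat.card F ^ n ∧
      (X ^ Nat.card F ^ n - X ∣ (ev a W fun k => y k ^ Nat.card F ^ n) - ev a W y) ∧
      (ev a W y).natDegree < Nat.card F ^ n ∧
      (X ^ Nat.card F ^ n - X : F[X]).natDegree = Nat.card F ^ n := by
    intro Q₁ n h1 h2 h3 h4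
    have h5 : ∀ k < W, k * a.natDegree ≤ Q₁ * Q₁ := fun k hk =>
      Nat.mul_le_mul (by omega) h3.le
    have h6 : Q₁ ≤ Q₁ * Q₁ := Nat.le_mul_self _
    have h7 : Nat.card F ^ n ≤ N * Nat.card F ^ n := Nat.le_mul_of_pos_left _ hN
    refine ⟨?_, ?_, ?_, ?_, ?_, ?_⟩
    · simp only [ev, pow_eq_expand, map_sum, map_mul, ← sum_sub_distrib, ← mul_sub]
      refine dvd_sum fun k _ => Dvd.dvd.mul_left ?_ _
      rw [map_pow _ (X ^ N) k]
      exact sub_dvd_pow_sub_pow _ _ k
    · refine (nd_ev (D := N * Nat.card F ^ n - 1) fun k hk => ?_).trans_lt (by omega)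
      have := h5 k hk
      have : Nat.card F ^ n * ((y k).natDegree + 1) ≤ Nat.card F ^ n * N :=
        Nat.mul_le_mul_left _ (hy k hk)
      rw [natDegree_pow, mul_comm N]
      rw [Nat.mul_succ] at this
      omega
    · rw [← pow_mul]
      exact (natDegree_sub_eq_left_of_natDegree_lt (by rw [natDegree_X_pow]; omega)).trans
        (natDegree_X_pow _)
    · simp only [ev, ← sum_sub_distrib, ← sub_mul]
      refine dvd_sum fun k _ => Dvd.dvd.mul_right ?_ _
      rw [pow_eq_expand n (y k)]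
      exact dvd_expand_sub _ _
    · refine (nd_ev (D := Nat.card F ^ n - 1) fun k hk => ?_).trans_lt (by omega)
      have := h5 k hk
      have := hy k hk
      omega
    · exact (natDegree_sub_eq_left_of_natDegree_lt
        (by rw [natDegree_X_pow, natDegree_X]; omega)).trans (natDegree_X_pow _)
  have hq := two_le_card (F := F)
  constructor
  · rintro ⟨_, _, _, _, _, r', s, s', ⟨m, rfl, rfl⟩, h1, h2, h3, h4, ⟨n, rfl, rfl⟩, ⟨n', e, rfl⟩,
      h5, h6, h7, h8⟩
    have e' := congrArg natDegree e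
    rw [← pow_mul, ← pow_add] at h4
    simp only [natDegree_X_pow] at h1 h2 h3 h4 h8 e'
    rw [← e'] at h5 h6
    obtain ⟨k1, k2, k3, k4, k5, k6⟩ := key _ n h1 h2 h3 h4
    rw [← pow_mul, natDegree_X_pow] at h6
    have e1 : r' = ev a W fun k => y k ^ Nat.card F ^ n := by
      refine rem_eq' ?_ (h6.trans_eq k3.symm) (k2.trans_eq k3.symm)
      convert dvd_sub k1 ⟨s, h5⟩ using 1
      ring
    refine rem_eq' ?_ (h8.trans_eq k6.symm) (k5.trans_eq k6.symm)
    convert dvd_sub k4 ⟨s', e1 ▸ h7⟩ using 1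
    ring
  · rintro rfl
    have hl : ∀ m, m < Nat.card F ^ m := fun m => Nat.lt_pow_self hq
    obtain ⟨m, hm⟩ : ∃ m, N + W + a.natDegree < Nat.card F ^ m := ⟨_, hl _⟩
    obtain ⟨n, hn⟩ : ∃ n, Nat.card F ^ m * Nat.card F ^ m + Nat.card F ^ m * Nat.card F ^ m <
      Nat.card F ^ n := ⟨_, hl _⟩
    obtain ⟨⟨s, k1⟩, k2, -, ⟨s', k4⟩, k5, -⟩ := key _ n (by omega) (by omega) (by omega) hn
    refine ⟨_, _, _, _, _, _, s, s', ⟨m, rfl, rfl⟩, ?_, ?_, ?_, ?_, ⟨n, rfl, rfl⟩,
      ⟨n, rfl, rfl⟩, k1, ?_, k4, ?_⟩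
    all_goals simp only [← pow_mul X, ← pow_add X, natDegree_X_pow]
    all_goals omega

/-- Powers with the exponent given as a power of `X`. -/
def Pw (a P r : F[X]) : Prop := Sub X (P * X) a P r

theorem pw_iff (a r : F[X]) (W : ℕ) : Pw a (X ^ W) r ↔ r = a ^ W := by
  have e : ∀ b : F[X], ev b (W + 1) (fun k => if k = W then 1 else 0) = b ^ W := fun b => by
    simp [ev]
  have := sub_iff (N := 1) (W := W + 1) one_pos (y := fun k => if k = W then 1 else 0)
    (fun k _ => by split_ifs <;> simp) a r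
  rwa [pow_one, e, e, pow_succ] at this

/-- The blockwise product. -/
def Had (U P Y Z r : F[X]) : Prop :=
  ∃ U' V V' A B S s : F[X], Pw U P U' ∧ V = U * U * U' ∧ Pw V P V' ∧ Sub U P (U * V) Y A ∧
    Sub U P V' Z B ∧ A * B - (r + V * S) = (V * V' - 1) * s ∧ r.natDegree < V.natDegree ∧
    S.degree < V'.degree

theorem had_iff {N W : ℕ} (hN : 0 < N) {y z : ℕ → F[X]} (hy : ∀ k < W, (y k).natDegree < N)
    (hz : ∀ k < W, (z k).natDegree < N) (r : F[X]) :
    Had (X ^ N) (X ^ W) (ev (X ^ N) W y) (ev (X ^ N) W z) r ↔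
      r = ev (X ^ N) W fun k => y k * z k := by
  obtain ⟨M, hM⟩ : ∃ M, M = N + N + N * W := ⟨_, rfl⟩
  have eV : (X ^ N * X ^ N * (X ^ N) ^ W : F[X]) = X ^ M := by
    rw [hM, ← pow_mul, ← pow_add, ← pow_add]
  have hb : ∀ i < W, ∀ j < W, (y i * z j * (X ^ N) ^ i).natDegree < M := fun i hi j hj => by
    have h1 := hy i hi
    have h2 := hz j hj
    have h3 : N * i ≤ N * W := Nat.mul_le_mul_left _ hi.le
    have h4 := natDegree_mul_le (p := y i * z j) (q := (X ^ N) ^ i)
    have h5 := natDegree_mul_le (p := y i) (q := z j)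
    rw [← pow_mul, natDegree_X_pow] at h4
    rw [← pow_mul]
    omega
  have hr : ∀ i < W, ∀ j < W, ((i + W * j) % (W + 1) = 0 ↔ i = j) := fun i hi j hj => by
    rw [← Nat.dvd_iff_mod_eq_zero, ← Int.natCast_dvd_natCast]
    push_cast
    constructor
    · intro h
      have h1 : (W + 1 : ℤ) ∣ i - j := by
        have := dvd_sub h (dvd_mul_right (W + 1 : ℤ) j)
        rwa [show (i + W * j - (W + 1) * j : ℤ) = i - j by ring] at this
      have := Int.eq_zero_of_abs_lt_dvd h1 (by rw [abs_lt]; omega)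
      omega
    · rintro rfl
      exact ⟨i, by ring⟩
  obtain ⟨S, hS, s, hs⟩ : ∃ S : F[X], S.degree < (X ^ (M * W) : F[X]).degree ∧
      X ^ M * (X ^ M) ^ W - 1 ∣ ev (X ^ N * X ^ M) W y * ev ((X ^ M) ^ W) W z -
        ((ev (X ^ N) W fun k => y k * z k) + X ^ M * S) := by
    refine ⟨∑ i ∈ range W, ∑ j ∈ range W, if i = j then 0 else
      y i * z j * (X ^ N) ^ i * (X ^ M) ^ ((i + W * j) % (W + 1) - 1), ?_, ?_⟩
    · rw [degree_X_pow, ← mem_degreeLT]
      refine Submodule.sum_mem _ fun i hi => Submodule.sum_mem _ fun j hj => ?_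
      split_ifs with h
      · exact Submodule.zero_mem _
      rw [mem_degreeLT, ← degree_X_pow (R := F)]
      refine degree_lt_degree (natDegree_mul_le.trans_lt ?_)
      have h1 := hb i (mem_range.1 hi) j (mem_range.1 hj)
      have h2 := (hr i (mem_range.1 hi) j (mem_range.1 hj)).not.2 h
      have h3 : (i + W * j) % (W + 1) < W + 1 := Nat.mod_lt _ W.succ_pos
      have h4 : M * ((i + W * j) % (W + 1) - 1 + 1) ≤ M * W := Nat.mul_le_mul_left _ (by omega)
      rw [← pow_mul X M, natDegree_X_pow, natDegree_X_pow]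
      rw [Nat.mul_succ] at h4
      omega
    · have e : (ev (X ^ N) W fun k => y k * z k) =
          ∑ i ∈ range W, ∑ j ∈ range W, if i = j then y i * z j * (X ^ N) ^ i else 0 :=
        sum_congr rfl fun i hi => by simp [mem_range.1 hi]
      rw [e, ev, ev, sum_mul_sum, mul_sum, ← sum_add_distrib, ← sum_sub_distrib]
      refine dvd_sum fun i hi => ?_
      rw [mul_sum, ← sum_add_distrib, ← sum_sub_distrib]
      refine dvd_sum fun j hj => ?_
      have h1 : ((if i = j then y i * z j * (X ^ N) ^ i else 0) + X ^ M * if i = j then 0 else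
          y i * z j * (X ^ N) ^ i * (X ^ M) ^ ((i + W * j) % (W + 1) - 1)) =
          y i * z j * (X ^ N) ^ i * (X ^ M) ^ ((i + W * j) % (W + 1)) := by
        have h2 := hr i (mem_range.1 hi) j (mem_range.1 hj)
        split_ifs with h
        · rw [h2.2 h]
          simp
        · obtain ⟨c, hc⟩ := Nat.exists_eq_succ_of_ne_zero (h2.not.2 h)
          rw [hc, Nat.succ_sub_one, pow_succ]
          ring
      have h3 : ((X ^ M) ^ i * ((X ^ M) ^ W) ^ j : F[X]) = ((X ^ M) ^ (W + 1)) ^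
          ((i + W * j) / (W + 1)) * (X ^ M) ^ ((i + W * j) % (W + 1)) := by
        rw [← pow_mul _ W, ← pow_mul _ (W + 1), ← pow_add, ← pow_add, Nat.div_add_mod]
      rw [h1, ← pow_succ']
      convert (sub_one_dvd_pow_sub_one ((X ^ M) ^ (W + 1) : F[X]) ((i + W * j) / (W + 1))).mul_right
        (y i * z j * (X ^ N) ^ i * (X ^ M) ^ ((i + W * j) % (W + 1))) using 1
      rw [mul_pow]
      linear_combination (y i * z j * (X ^ N) ^ i) * h3
  have hM0 : 0 < M := by omega
  have hP : (ev (X ^ N) W fun k => y k * z k).natDegree < M := by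
    refine lt_of_le_of_lt (natDegree_sum_le_of_forall_le (n := M - 1) _ _ fun k hk => ?_) (by omega)
    exact Nat.le_sub_one_of_lt (hb k (mem_range.1 hk) k (mem_range.1 hk))
  constructor
  · rintro ⟨U', V, V', A, B, S', s', h1, h2, h3, h4, h5, h6, h7, h8⟩
    rw [pw_iff] at h1 h3
    rw [h1, eV] at h2
    subst h2 h3
    rw [sub_iff hN hy] at h4
    rw [sub_iff hN hz] at h5
    subst h4 h5
    rw [natDegree_X_pow] at h7
    rw [← pow_mul] at h8
    have hd : ∀ r S : F[X], r.natDegree < M → S.degree < (X ^ (M * W) : F[X]).degree →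
        (r + X ^ M * S).degree < (X ^ M * (X ^ M) ^ W - 1 : F[X]).degree := fun r S h h' => by
      rw [← pow_mul, ← pow_add, ← C_1, degree_X_pow_sub_C (by omega)]
      refine (degree_add_le _ _).trans_lt (max_lt ?_ ?_)
      · rw [← degree_X_pow (R := F)]
        exact degree_lt_degree (by rw [natDegree_X_pow]; omega)
      · rw [degree_mul, degree_X_pow, Nat.cast_add]
        rw [degree_X_pow] at h'
        exact WithBot.add_lt_add_left (WithBot.coe_ne_bot) h'
    have e := rem_eq ⟨s - s', by linear_combination hs - h6⟩ (hd _ _ h7 h8) (hd _ _ hP hS)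
    exact rem_eq' (M := X ^ M) ⟨S - S', by linear_combination e⟩ (by simpa using h7)
      (by simpa using hP)
  · rintro rfl
    exact ⟨_, X ^ M, _, _, _, S, s, (pw_iff _ _ _).2 rfl, eV.symm, (pw_iff _ _ _).2 rfl,
      (sub_iff hN hy _ _).2 rfl, (sub_iff hN hz _ _).2 rfl, hs, by simpa using hP,
      by rwa [← pow_mul]⟩

namespace Base

variable (B : Base F)
include B

theorem dfr {f g h : Γ → F[X]} (hf : PF F[X] f) (hg : PF F[X] g) (hh : PF F[X] h) :
    Dio F[X] fun x => Fr (f x) (g x) (h x) :=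
  B.fr.comp (f := fun x => (f x, g x, h x)) (by fun_prop)

theorem dlt {f g : Γ → F[X]} (hf : PF F[X] f) (hg : PF F[X] g) :
    Dio F[X] fun x => (f x).degree < (g x).degree :=
  B.lt.comp (f := fun x => (f x, g x)) (by fun_prop)

theorem dnl {f g : Γ → F[X]} (hf : PF F[X] f) (hg : PF F[X] g) :
    Dio F[X] fun x => (f x).natDegree < (g x).natDegree := by
  refine ((B.dlt hf hg).and (B.dlt (.const 1) hg)).congr fun x => ⟨fun h => ⟨degree_lt_degree h,
    degree_lt_degree (by rw [natDegree_one]; omega)⟩, fun h => ?_⟩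
  by_cases h0 : f x = 0
  · simpa [h0] using natDegree_lt_natDegree one_ne_zero h.2
  · exact natDegree_lt_natDegree h0 h.1

theorem dpow {f : Γ → F[X]} (hf : PF F[X] f) : Dio F[X] fun x => ∃ n, f x = X ^ n := by
  have : Dio F[X] fun x => ∃ T y s : F[X], Fr T 1 1 ∧ T = f x * y ∧ f x - 1 = (X - 1) * s := by
    refine .ex (.ex (.ex (.and (B.dfr ?_ ?_ ?_) (.and (.eq ?_ ?_) (.eq ?_ ?_))))) <;> fun_prop
  refine this.congr fun x => ⟨?_, ?_⟩
  · rintro ⟨n, e⟩
    obtain ⟨s, hs⟩ := sub_one_dvd_pow_sub_one (X : F[X]) n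
    obtain ⟨y, hy⟩ := pow_dvd_pow (X : F[X]) (Nat.lt_pow_self (n := n) (two_le_card (F := F))).le
    exact ⟨_, y, s, ⟨n, rfl, by simp⟩, e ▸ hy, e ▸ hs⟩
  · rintro ⟨_, y, s, ⟨n, rfl, -⟩, h1, h2⟩
    obtain ⟨i, -, u, hu⟩ := (dvd_prime_pow prime_X _).1 ⟨y, h1⟩
    obtain ⟨c, -, hc⟩ := isUnit_iff.1 u.isUnit
    have h3 := congrArg (eval 1) hu
    have h4 := congrArg (eval 1) h2
    simp only [← hc, eval_mul, eval_C, eval_pow, eval_X, one_pow, eval_sub, eval_one, sub_self,
      zero_mul, sub_eq_zero] at h3 h4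
    rw [h4, one_mul] at h3
    exact ⟨i, by rw [← hu, ← hc, h3, C_1, mul_one]⟩

theorem dsub {f₁ f₂ f₃ f₄ f₅ : Γ → F[X]} (h₁ : PF F[X] f₁) (h₂ : PF F[X] f₂) (h₃ : PF F[X] f₃)
    (h₄ : PF F[X] f₄) (h₅ : PF F[X] f₅) :
    Dio F[X] fun x => Sub (f₁ x) (f₂ x) (f₃ x) (f₄ x) (f₅ x) := by
  refine .ex (.ex (.ex (.ex (.ex (.ex (.ex (.ex (.and (B.dfr ?_ ?_ ?_) (.and (B.dnl ?_ ?_)
    (.and (B.dnl ?_ ?_) (.and (B.dnl ?_ ?_) (.and (B.dnl ?_ ?_) (.and (B.dfr ?_ ?_ ?_)
    (.and (B.dfr ?_ ?_ ?_) (.and (.eq ?_ ?_) (.and (B.dnl ?_ ?_) (.and (.eq ?_ ?_)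
    (B.dnl ?_ ?_)))))))))))))))))) <;> fun_prop

theorem dpw {f g h : Γ → F[X]} (hf : PF F[X] f) (hg : PF F[X] g) (hh : PF F[X] h) :
    Dio F[X] fun x => Pw (f x) (g x) (h x) := by
  refine B.dsub ?_ ?_ ?_ ?_ ?_ <;> fun_prop

theorem dhad {f₁ f₂ f₃ f₄ f₅ : Γ → F[X]} (h₁ : PF F[X] f₁) (h₂ : PF F[X] f₂) (h₃ : PF F[X] f₃)
    (h₄ : PF F[X] f₄) (h₅ : PF F[X] f₅) :
    Dio F[X] fun x => Had (f₁ x) (f₂ x) (f₃ x) (f₄ x) (f₅ x) := by
  refine .ex (.ex (.ex (.ex (.ex (.ex (.ex (.and (B.dpw ?_ ?_ ?_) (.and (.eq ?_ ?_)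
    (.and (B.dpw ?_ ?_ ?_) (.and (B.dsub ?_ ?_ ?_ ?_ ?_) (.and (B.dsub ?_ ?_ ?_ ?_ ?_)
    (.and (.eq ?_ ?_) (.and (B.dnl ?_ ?_) (B.dlt ?_ ?_)))))))))))))) <;> fun_prop

end Base

end Pool.Agent.MP_a59382_lc.H18
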