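import Pool.Agent.MP_a59382_lc.H18.Rng

/-!
Listable sets of a global function field are diophantine.
-/

set_option autoImplicit false
set_option linter.unusedSectionVars false

namespace Pool.Agent.MP_a59382_lc.H18

open Polynomial Pool.Agent.MP_a59382_lc.H11

theorem Dio.ex' {R Γ Δ : Type} [CommRing R] [Ctx R Γ] [Ctx R Δ] {S : Γ × Δ → Prop}
    (h : Dio R S) : Dio R fun g => ∃ d, S (g, d) := .ex (S := fun g d => S (g, d)) h

variable {F K : Type} [Field F] [Finite F] [Field K] {Γ : Type} [Ctx F[X] Γ] (ρ : ℕ → K)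

/-- `u` is a code of `y`. -/
def Cd (u : F[X]) (y : K) : Prop := ∃ n, u = X ^ n ∧ ρ n = y

/-- The graph of an operation on codes. -/
def Op (op : K → K → K) (u v w : F[X]) : Prop :=
  ∃ i j k, u = X ^ i ∧ v = X ^ j ∧ w = X ^ k ∧ op (ρ i) (ρ j) = ρ k

variable (F) in
/-- The codes of the values of `f` form a diophantine set. -/
def Cod (f : Γ → K) : Prop := Dio F[X] fun x : Γ × F[X] => Cd ρ x.2 (f x.1)

variable {ρ}

theorem dop {op : K → K → K} (h : REPred fun x : ℕ × ℕ × ℕ => op (ρ x.1) (ρ x.2.1) = ρ x.2.2) :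
    Dio F[X] fun x : F[X] × F[X] × F[X] => Op ρ op x.1 x.2.1 x.2.2 := by
  have := (base F).re (π := ![fun x => x.1, fun x => x.2.1, fun x => x.2.2]) h fun s => by
    fin_cases s
    · exact Computable.fst
    · exact Computable.fst.comp Computable.snd
    · exact Computable.snd.comp Computable.snd
  refine (this.comp (f := fun x : F[X] × F[X] × F[X] => ![x.1, x.2.1, x.2.2])
    (.pi fun s => by fin_cases s <;> simp <;> fun_prop)).congr fun x => ?_
  simp only [Op, Fin.forall_fin_succ, Prod.exists]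
  simp only [Matrix.cons_val_zero, Matrix.cons_val_succ, IsEmpty.forall_iff, and_true]
  exact exists₃_congr fun _ _ _ => by tauto

theorem Cod.app {Δ : Type} [Ctx F[X] Δ] {f : Γ → K} (h : Cod F ρ f) {g : Δ → Γ} {u : Δ → F[X]}
    (hg : PF F[X] g) (hu : PF F[X] u) : Dio F[X] fun x => Cd ρ (u x) (f (g x)) :=
  Dio.comp h (f := fun x => (g x, u x)) (by fun_prop)

theorem coeff_iff (a : F[X]) (k : ℕ) (c : F) :
    (∃ r s, a = r + X ^ k * (C c + X * s) ∧ r.degree < (X ^ k : F[X]).degree) ↔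
      c = a.coeff k := by
  have key : ∀ r g : F[X], r.degree < (X ^ k : F[X]).degree →
      (r + X ^ k * g).coeff k = g.coeff 0 := fun r g h => by
    rw [coeff_add, coeff_eq_zero_of_degree_lt (by simpa using h), zero_add]
    simpa using coeff_X_pow_mul g k 0
  constructor
  · rintro ⟨r, s, rfl, h⟩
    simp [key r _ h]
  · rintro rfl
    have h1 := degree_modByMonic_lt a (monic_X_pow (R := F) k)
    have h2 := modByMonic_add_div a (X ^ k : F[X])
    refine ⟨_, divX (a /ₘ X ^ k), ?_, h1⟩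
    rw [← congrArg (coeff · k) h2, key _ _ h1, add_comm (C _), X_mul_divX_add, h2]

variable (hs : Function.Surjective ρ)
include hs

theorem Cod.op {op : K → K → K}
    (h : REPred fun x : ℕ × ℕ × ℕ => op (ρ x.1) (ρ x.2.1) = ρ x.2.2) {f g : Γ → K}
    (hf : Cod F ρ f) (hg : Cod F ρ g) : Cod F ρ fun x => op (f x) (g x) := by
  have : Dio F[X] fun x : Γ × F[X] => ∃ u v, Cd ρ u (f x.1) ∧ Cd ρ v (g x.1) ∧
      Op ρ op u v x.2 := by
    refine .ex (.ex (.and (hf.app ?_ ?_) (.and (hg.app ?_ ?_) ((dop h).app3 ?_ ?_ ?_)))) <;>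
      fun_prop
  refine this.congr fun x => ⟨?_, ?_⟩
  · rintro ⟨n, h1, h2⟩
    obtain ⟨i, hi⟩ := hs (f x.1)
    obtain ⟨j, hj⟩ := hs (g x.1)
    exact ⟨_, _, ⟨i, rfl, hi⟩, ⟨j, rfl, hj⟩, i, j, n, rfl, rfl, h1, by rw [hi, hj, h2]⟩
  · rintro ⟨_, _, ⟨i, rfl, hi⟩, ⟨j, rfl, hj⟩, i', j', n, e, e', h1, h2⟩
    obtain rfl := xp_inj.1 e
    obtain rfl := xp_inj.1 e'
    exact ⟨n, h1, by rw [← h2, hi, hj]⟩

variable (ha : REPred fun x : ℕ × ℕ × ℕ => ρ x.1 + ρ x.2.1 = ρ x.2.2)
include ha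

theorem Cod.const (c : K) : Cod F ρ fun _ : Γ => c := by
  obtain ⟨i, hi⟩ := hs c
  obtain ⟨j, hj⟩ := hs 0
  have : Dio F[X] fun x : Γ × F[X] => Op ρ (· + ·) (X ^ i) (X ^ j) x.2 := by
    refine (dop (op := (· + ·)) ha).app3 ?_ ?_ ?_ <;> fun_prop
  refine this.congr fun x => ⟨?_, ?_⟩
  · rintro ⟨n, h1, h2⟩
    exact ⟨i, j, n, rfl, rfl, h1, by simp [hi, hj, h2]⟩
  · rintro ⟨i', j', n, e, e', h1, h2⟩
    obtain rfl := xp_inj.1 e
    obtain rfl := xp_inj.1 e'
    exact ⟨n, h1, by simpa [hi, hj] using h2.symm⟩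

theorem Cod.sum {σ : Type} (s : Finset σ) {f : σ → Γ → K} (hf : ∀ i, Cod F ρ (f i)) :
    Cod F ρ fun x => ∑ i ∈ s, f i x := by
  classical
  induction s using Finset.induction_on with
  | empty => simpa using Cod.const hs ha 0
  | insert a s h ih => simpa [Finset.sum_insert h] using Cod.op hs (op := (· + ·)) ha (hf a) ih

variable (hm : REPred fun x : ℕ × ℕ × ℕ => ρ x.1 * ρ x.2.1 = ρ x.2.2)
include hm

theorem Cod.poly (φ : F[X] →+* K) : Cod F ρ φ := by
  choose cd hcd using hs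
  have hS : Dio F[X] fun x : F[X] × F[X] × F[X] × F[X] => ∃ c : F,
      (∃ r s, x.1 = r + x.2.1 * (C c + X * s) ∧ r.degree < x.2.1.degree) ∧
      ∃ z, Op ρ (· * ·) (X ^ cd (φ X)) x.2.2.2 z ∧ Op ρ (· + ·) z (X ^ cd (φ (C c))) x.2.2.1 := by
    refine .any fun c => .and (.ex (.ex (.and (.eq ?_ ?_) ((base F).dlt ?_ ?_))))
      (.ex (.and ((dop (op := (· * ·)) hm).app3 ?_ ?_ ?_)
        ((dop (op := (· + ·)) ha).app3 ?_ ?_ ?_))) <;> fun_prop
  have h1 := ((base F).chain hS).comp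
    (f := fun x : (F[X] × F[X]) × F[X] => (x.1.1, x.2, x.1.2, X ^ cd 0)) (by fun_prop)
  refine (((base F).dlt (f := fun x => x.1.1) (g := fun x => x.2) (by fun_prop)
    (by fun_prop)).and h1).ex'.congr fun ⟨a, u⟩ => ⟨?_, ?_⟩
  · rintro ⟨n, rfl, hn⟩
    have hd : ∀ k m, (divX^[k] a).coeff m = a.coeff (m + k) := fun k => by
      induction k with
      | zero => simp
      | succ k ih =>
        intro m
        rw [Function.iterate_succ_apply', coeff_divX, ih, add_assoc, add_comm 1]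
    refine ⟨X ^ (a.natDegree + 1), degree_lt_degree (by simp), _, rfl,
      fun k => X ^ (if k = 0 then n else cd (φ (divX^[k] a))), by simp, ?_, fun k _ =>
      ⟨_, (coeff_iff a k _).2 rfl, X ^ cd (φ X * φ (divX^[k + 1] a)),
        ⟨_, _, _, rfl, rfl, rfl, by simp only [k.succ_ne_zero, if_false, hcd]⟩,
        _, _, _, rfl, rfl, rfl, ?_⟩⟩
    · have : divX^[a.natDegree + 1] a = 0 := by
        ext m
        rw [hd, coeff_eq_zero_of_natDegree_lt (by omega), coeff_zero]
      simp only [this, map_zero, Nat.succ_ne_zero, if_false]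
    · have : ρ (if k = 0 then n else cd (φ (divX^[k] a))) = φ (divX^[k] a) := by
        split_ifs with h
        · simpa [h] using hn
        · exact hcd _
      simp only [hcd, this]
      rw [← map_mul, ← map_add, Function.iterate_succ_apply', ← zero_add k, ← hd, zero_add,
        X_mul_divX_add]
  · rintro ⟨_, h, W, rfl, y, rfl, h0, hy⟩
    have key : ∀ k ≤ W, ∀ z, Cd ρ (y k) z → Cd ρ (y 0)
        (φ (∑ j ∈ Finset.range k, C (a.coeff j) * X ^ j) + φ X ^ k * z) := by
      intro k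
      induction k with
      | zero => simp
      | succ k ih =>
        rintro hk _ ⟨n, e, rfl⟩
        obtain ⟨c, h1, _, ⟨i, j, l, e1, e2, rfl, e3⟩, i', j', l', e4, e5, e6, e7⟩ := hy k hk
        obtain rfl := (coeff_iff a k c).1 h1
        simp only [e, xp_inj] at e1 e2 e3 e4 e5 e6 e7
        subst e1 e2 e4 e5
        convert ih (by omega) _ ⟨l', e6, rfl⟩ using 1
        rw [← e7, ← e3, hcd, hcd, Finset.sum_range_succ, map_add, map_mul, map_pow]
        ring
    have := key W le_rfl 0 ⟨_, h0, hcd 0⟩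
    rw [mul_zero, add_zero] at this
    rcases eq_or_ne a 0 with rfl | h2
    · simpa using this
    · rwa [← a.as_sum_range_C_mul_X_pow' (by simpa using natDegree_lt_natDegree h2 h)] at this

variable (F) in
theorem dio_of_re [Algebra F[X] K] [Algebra (RatFunc F) K] [IsScalarTower F[X] (RatFunc F) K]
    [FunctionField F K] [Algebra.IsSeparable (RatFunc F) K] {m : ℕ} {S : Set (Fin m → K)}
    (hS : REPred fun x : Fin m → ℕ => (fun s => ρ (x s)) ∈ S) :
    ∃ (n : ℕ) (f : MvPolynomial (Fin m ⊕ Fin n) K), ∀ a,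
      (∃ z : Fin n → K, MvPolynomial.eval (Sum.elim a z) f = 0) ↔ a ∈ S := by
  obtain ⟨ι', val', -, Y⟩ := exists_sys F K
  have hi := phi_inj Y rfl
  let b := Module.finBasis (RatFunc F) K
  have hp := Cod.poly hs ha hm (algebraMap F[X] K)
  have h1 := (base F).re (π := fun (s : Fin m) (x : Fin m → ℕ) => x s) hS fun s =>
    (Primrec.fin_app.comp .id (.const s)).to_comp
  have h2 : Cod F ρ fun v : Option (Fin (Module.finrank (RatFunc F) K)) → F[X] =>
      ∑ j, algebraMap F[X] K (v (some j)) * b j :=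
    Cod.sum hs ha _ fun j => Cod.op hs (op := (· * ·)) hm
      (hp.app (g := fun x : (Option _ → F[X]) × F[X] => x.1 (some j)) (by fun_prop) (by fun_prop))
      (Cod.const hs ha _)
  have h3 : Dio F[X] fun v : Fin m × Option (Fin (Module.finrank (RatFunc F) K)) → F[X] =>
      ∃ u : Fin m → F[X], (∃ x : Fin m → ℕ, (fun s => ρ (x s)) ∈ S ∧ ∀ s, u s = X ^ x s) ∧
        ∀ s, v (s, none) ≠ 0 ∧ ∃ w w', Cd ρ w (algebraMap F[X] K (v (s, none))) ∧
          Cd ρ w' (∑ j, algebraMap F[X] K (v (s, some j)) * b j) ∧ Op ρ (· * ·) w (u s) w' := by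
    refine .ex (.and (h1.comp ?_) (.all fun s => .and (dio_ne.comp ?_) (.ex (.ex
      (.and (hp.app ?_ ?_) (.and (h2.app (g := fun x : (((Fin m × Option _ → F[X]) × _) × _) × F[X] =>
        fun j => x.1.1.1 (s, j)) ?_ ?_)
      ((dop (op := (· * ·)) hm).app3 ?_ ?_ ?_))))))) <;> fun_prop
  have h4 := (Dio.up _ hi (dio_range Y rfl) h3).comp
    (f := fun x : (Fin m → K) × (_ → K) => x.2) (by fun_prop)
  refine ((h4.and (.all fun s => .eq (f := fun x => x.2 (s, none) * x.1 s)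
    (h := fun x => ∑ j, x.2 (s, some j) * b j) (by fun_prop)
    (by fun_prop))).ex'.congr fun a => ⟨fun h => ?_, ?_⟩).out Y.aniso
  · choose cd hcd using hs
    choose D hD using fun s => IsLocalization.exist_integer_multiples_of_finite
      (nonZeroDivisors F[X]) (b.repr (a s))
    choose c hc using hD
    have e : ∀ s, algebraMap F[X] K (D s) * a s = ∑ j, algebraMap F[X] K (c s j) * b j := by
      intro s
      conv_lhs => rw [← b.sum_repr (a s), Finset.mul_sum]
      refine Finset.sum_congr rfl fun j _ => ?_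
      rw [IsScalarTower.algebraMap_apply _ (RatFunc F) K (c s j), hc, ← Algebra.smul_def,
        ← Algebra.smul_def, smul_assoc]
    exact ⟨_, ⟨fun x => x.2.elim (D x.1) (c x.1), fun _ => rfl, _, ⟨fun s => cd (a s),
      by simpa only [hcd] using h, fun _ => rfl⟩, fun s => ⟨nonZeroDivisors.ne_zero (D s).2,
        _, _, ⟨_, rfl, hcd _⟩, ⟨_, rfl, hcd _⟩, _, _, _, rfl, rfl, rfl, by
          simpa only [hcd, Option.elim] using e s⟩⟩, e⟩
  · rintro ⟨w, ⟨v, hv, u, ⟨x, hx, hu⟩, h⟩, e⟩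
    convert hx using 2 with s
    obtain ⟨h0, _, _, ⟨i, rfl, hi'⟩, ⟨j, rfl, hj⟩, i', k, j', e1, e2, e3, e4⟩ := h s
    simp only [hu, xp_inj] at e1 e2 e3 e4
    subst e1 e2 e3
    refine mul_left_cancel₀ ((map_ne_zero_iff _ hi).2 h0) ?_
    rw [← hi', e4, hj, hi']
    simpa only [show ∀ s, w s = _ from hv] using e s

end Pool.Agent.MP_a59382_lc.H18
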