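import Mathlib

/-!
Polynomial maps between finite products of a commutative ring and diophantine predicates.
-/

set_option autoImplicit false

namespace Pool.Agent.MP_a59382_lc.H18

/-- A type with finitely many coordinates in `R`. -/
class Ctx (R Γ : Type) : Type 1 where
  ι : Type
  fin : Finite ι
  e : Γ ≃ (ι → R)

attribute [instance] Ctx.fin

/-- The coordinates. -/
abbrev cd (R : Type) {Γ : Type} [Ctx R Γ] : Γ ≃ (Ctx.ι R Γ → R) := Ctx.e

variable {R : Type}

instance ctxSelf : Ctx R R := ⟨Unit, inferInstance, (Equiv.funUnique Unit R).symm⟩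

instance ctxProd (Γ Δ : Type) [Ctx R Γ] [Ctx R Δ] : Ctx R (Γ × Δ) :=
  ⟨Ctx.ι R Γ ⊕ Ctx.ι R Δ, inferInstance,
    (Equiv.prodCongr (cd R) (cd R)).trans (Equiv.sumArrowEquivProdArrow _ _ _).symm⟩

instance ctxPi (σ Γ : Type) [Finite σ] [Ctx R Γ] : Ctx R (σ → Γ) :=
  ⟨σ × Ctx.ι R Γ, inferInstance,
    (Equiv.piCongrRight fun _ => cd R).trans (Equiv.curry σ (Ctx.ι R Γ) R).symm⟩

variable [CommRing R] {Γ Δ Θ : Type} [Ctx R Γ] [Ctx R Δ] [Ctx R Θ]

/-- Polynomial functions of the coordinates. -/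
inductive Pol : (Γ → R) → Prop
  | const (c : R) : Pol fun _ => c
  | var (j : Ctx.ι R Γ) : Pol fun g => cd R g j
  | add {f h : Γ → R} : Pol f → Pol h → Pol fun g => f g + h g
  | mul {f h : Γ → R} : Pol f → Pol h → Pol fun g => f g * h g

variable (R) in
/-- Polynomial maps. -/
@[fun_prop]
def PF (f : Γ → Δ) : Prop := ∀ j : Ctx.ι R Δ, Pol fun g => cd R (f g) j

theorem Pol.comp {f : Δ → R} (hf : Pol f) {h : Γ → Δ} (hh : PF R h) : Pol fun g => f (h g) := by
  induction hf with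
  | const c => exact .const c
  | var j => exact hh j
  | add _ _ h1 h2 => exact h1.add h2
  | mul _ _ h1 h2 => exact h1.mul h2

theorem pf_iff {f : Γ → R} : PF R f ↔ Pol f := ⟨fun h => h (), fun h _ => h⟩

namespace PF

@[fun_prop] theorem id' : PF R fun g : Γ => g := fun j => .var j

@[fun_prop] theorem const (c : Δ) : PF R fun _ : Γ => c := fun _ => .const _

@[fun_prop] theorem comp {f : Δ → Θ} {h : Γ → Δ} (hf : PF R f) (hh : PF R h) :
    PF R fun g => f (h g) := fun j => (hf j).comp hh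

@[fun_prop] theorem apply {σ : Type} [Finite σ] (s : σ) : PF R fun v : σ → Γ => v s :=
  fun j => Pol.var (R := R) (Γ := σ → Γ) (s, j)

@[fun_prop] theorem pi {σ : Type} [Finite σ] {f : Γ → σ → Δ} (h : ∀ s, PF R fun g => f g s) :
    PF R fun g s => f g s := fun j => h j.1 j.2

@[fun_prop] theorem fst : PF R (Prod.fst : Γ × Δ → Γ) :=
  fun j => Pol.var (R := R) (Γ := Γ × Δ) (Sum.inl j)

@[fun_prop] theorem snd : PF R (Prod.snd : Γ × Δ → Δ) :=
  fun j => Pol.var (R := R) (Γ := Γ × Δ) (Sum.inr j)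

@[fun_prop] theorem mk {f : Γ → Δ} {h : Γ → Θ} (hf : PF R f) (hh : PF R h) :
    PF R fun g => (f g, h g) := fun j => by
  cases j with
  | inl j => exact hf j
  | inr j => exact hh j

@[fun_prop] theorem add {f h : Γ → R} (hf : PF R f) (hh : PF R h) : PF R fun g => f g + h g :=
  pf_iff.2 ((pf_iff.1 hf).add (pf_iff.1 hh))

@[fun_prop] theorem mul {f h : Γ → R} (hf : PF R f) (hh : PF R h) : PF R fun g => f g * h g :=
  pf_iff.2 ((pf_iff.1 hf).mul (pf_iff.1 hh))

@[fun_prop] theorem sub {f h : Γ → R} (hf : PF R f) (hh : PF R h) : PF R fun g => f g - h g := by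
  simpa [sub_eq_add_neg] using hf.add ((const (-1 : R)).mul hh)

@[fun_prop] theorem pow {f : Γ → R} (hf : PF R f) (n : ℕ) : PF R fun g => f g ^ n := by
  induction n with
  | zero => simpa using const (1 : R)
  | succ n ih => simpa [pow_succ] using ih.mul hf

@[fun_prop] theorem sum {σ : Type} (s : Finset σ) {f : σ → Γ → R} (hf : ∀ i, PF R (f i)) :
    PF R fun g => ∑ i ∈ s, f i g := by
  classical
  induction s using Finset.induction_on with
  | empty => simpa using const (0 : R)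
  | insert a s ha ih => simpa [Finset.sum_insert ha] using (hf a).add ih

theorem co (j : Ctx.ι R Γ) : PF R fun g : Γ => cd R g j := pf_iff.2 (.var j)

theorem unco {f : Γ → Ctx.ι R Δ → R} (hf : ∀ j, PF R fun g => f g j) :
    PF R fun g => ((cd R).symm (f g) : Δ) := fun j => by
  simpa using pf_iff.1 (hf j)

end PF

variable (R) in
/-- `S` is defined by an existentially quantified system of polynomial equations. -/
def Dio (S : Γ → Prop) : Prop :=
  ∃ (Δ : Type) (_ : Ctx R Δ) (κ : Type) (_ : Finite κ) (p : κ → Γ × Δ → R),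
    (∀ k, PF R (p k)) ∧ ∀ g, S g ↔ ∃ d, ∀ k, p k (g, d) = 0

namespace Dio

theorem congr {S S' : Γ → Prop} (h : Dio R S) (e : ∀ v, S' v ↔ S v) : Dio R S' := by
  have : S' = S := funext fun v => propext (e v)
  rwa [this]

theorem eq {f h : Γ → R} (hf : PF R f) (hh : PF R h) : Dio R fun g => f g = h g :=
  ⟨R, inferInstance, Unit, inferInstance, fun _ x => f x.1 - h x.1, fun _ => by fun_prop,
    fun g => by simp [sub_eq_zero]⟩

theorem comp {S : Δ → Prop} (h : Dio R S) {f : Γ → Δ} (hf : PF R f) : Dio R fun g => S (f g) := by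
  obtain ⟨Θ, _, κ, _, p, hp, hS⟩ := h
  exact ⟨Θ, inferInstance, κ, inferInstance, fun k x => p k (f x.1, x.2),
    fun k => (hp k).comp (by fun_prop), fun g => hS _⟩

theorem ex {S : Γ → Δ → Prop} (h : Dio R fun x : Γ × Δ => S x.1 x.2) :
    Dio R fun g => ∃ d, S g d := by
  obtain ⟨Θ, _, κ, _, p, hp, hS⟩ := h
  refine ⟨Δ × Θ, inferInstance, κ, inferInstance, fun k x => p k ((x.1, x.2.1), x.2.2),
    fun k => (hp k).comp (by fun_prop), fun g => ⟨?_, ?_⟩⟩
  · rintro ⟨d, hd⟩
    obtain ⟨z, hz⟩ := (hS (g, d)).1 hd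
    exact ⟨(d, z), hz⟩
  · rintro ⟨z, hz⟩
    exact ⟨z.1, (hS (g, z.1)).2 ⟨z.2, hz⟩⟩

theorem and {S S' : Γ → Prop} (h : Dio R S) (h' : Dio R S') : Dio R fun g => S g ∧ S' g := by
  obtain ⟨Δ, _, κ, _, p, hp, hS⟩ := h
  obtain ⟨Δ', _, κ', _, p', hp', hS'⟩ := h'
  refine ⟨Δ × Δ', inferInstance, κ ⊕ κ', inferInstance,
    Sum.elim (fun k x => p k (x.1, x.2.1)) (fun k x => p' k (x.1, x.2.2)), ?_, fun g => ?_⟩
  · rintro (k | k)
    · exact (hp k).comp (by fun_prop)
    · exact (hp' k).comp (by fun_prop)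
  · simp [hS, hS']

theorem or [IsDomain R] {S S' : Γ → Prop} (h : Dio R S) (h' : Dio R S') :
    Dio R fun g => S g ∨ S' g := by
  obtain ⟨Δ, _, κ, _, p, hp, hS⟩ := h
  obtain ⟨Δ', _, κ', _, p', hp', hS'⟩ := h'
  refine ⟨Δ × Δ', inferInstance, κ × κ', inferInstance,
    fun k x => p k.1 (x.1, x.2.1) * p' k.2 (x.1, x.2.2),
    fun k => ((hp k.1).comp (by fun_prop)).mul ((hp' k.2).comp (by fun_prop)), fun g => ?_⟩
  simp only [hS, hS', mul_eq_zero, Prod.forall, Prod.exists]
  constructor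
  · rintro (⟨d, hd⟩ | ⟨d, hd⟩)
    · exact ⟨d, (cd R).symm 0, fun k _ => .inl (hd k)⟩
    · exact ⟨(cd R).symm 0, d, fun _ k => .inr (hd k)⟩
  · rintro ⟨d, d', h⟩
    by_cases h1 : ∀ k, p k (g, d) = 0
    · exact .inl ⟨d, h1⟩
    · obtain ⟨k, hk⟩ := not_forall.1 h1
      exact .inr ⟨d', fun k' => (h k k').resolve_left hk⟩

theorem all {σ : Type} [Finite σ] {S : σ → Γ → Prop} (h : ∀ i, Dio R (S i)) :
    Dio R fun g => ∀ i, S i g := by
  classical
  have := Fintype.ofFinite σ
  have key : ∀ s : Finset σ, Dio R fun g => ∀ i ∈ s, S i g := fun s => by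
    induction s using Finset.induction_on with
    | empty => exact (eq (PF.const (0 : R)) (PF.const 0)).congr fun v => by simp
    | insert a s _ ih => exact ((h a).and ih).congr fun v => by simp
  exact (key Finset.univ).congr fun v => by simp

theorem any [IsDomain R] {σ : Type} [Finite σ] {S : σ → Γ → Prop} (h : ∀ i, Dio R (S i)) :
    Dio R fun g => ∃ i, S i g := by
  classical
  have := Fintype.ofFinite σ
  have key : ∀ s : Finset σ, Dio R fun g => ∃ i ∈ s, S i g := fun s => by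
    induction s using Finset.induction_on with
    | empty => exact (eq (PF.const (0 : R)) (PF.const 1)).congr fun v => by simp
    | insert a s _ ih => exact ((h a).or ih).congr fun v => by simp
  exact (key Finset.univ).congr fun v => by simp

end Dio

section Transfer

variable {A : Type} [CommRing A] (φ : R →+* A)

theorem Pol.up {f : Γ → R} (hf : Pol f) : ∃ f' : (Ctx.ι R Γ → A) → A, PF A f' ∧
    ∀ g, φ (f g) = f' fun j => φ (cd R g j) := by
  induction hf with
  | const c => exact ⟨fun _ => φ c, by fun_prop, fun _ => rfl⟩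
  | var j => exact ⟨fun v => v j, by fun_prop, fun _ => rfl⟩
  | add _ _ h1 h2 =>
    obtain ⟨f1, a1, b1⟩ := h1
    obtain ⟨f2, a2, b2⟩ := h2
    exact ⟨fun v => f1 v + f2 v, by fun_prop, fun g => by simp [b1, b2]⟩
  | mul _ _ h1 h2 =>
    obtain ⟨f1, a1, b1⟩ := h1
    obtain ⟨f2, a2, b2⟩ := h2
    exact ⟨fun v => f1 v * f2 v, by fun_prop, fun g => by simp [b1, b2]⟩

/-- Transfer to a ring in which the image of `R` is diophantine. -/
theorem Dio.up (hφ : Function.Injective φ) (hR : Dio A fun x : A => x ∈ φ.range) {σ : Type}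
    [Finite σ] {S : (σ → R) → Prop} (h : Dio R S) :
    Dio A fun w : σ → A => ∃ v, (∀ s, w s = φ (v s)) ∧ S v := by
  obtain ⟨Δ, _, κ, _, p, hp, hS⟩ := h
  choose f hf hf' using fun k => (pf_iff.1 (hp k)).up φ
  have : Dio A fun w : σ → A => ∃ z : Ctx.ι R ((σ → R) × Δ) → A, (∀ j, z j ∈ φ.range) ∧
      (∀ s, w s = z (Sum.inl (s, ()))) ∧ ∀ k, f k z = 0 :=
    .ex (.and (.all fun j => hR.comp (by fun_prop)) (.and
      (.all fun s => .eq (by fun_prop) (by fun_prop)) (.all fun k => .eq (by fun_prop) (by fun_prop))))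
  refine this.congr fun w => ⟨?_, ?_⟩
  · rintro ⟨v, hv, h⟩
    obtain ⟨d, hd⟩ := (hS v).1 h
    exact ⟨fun j => φ (cd R (v, d) j), fun j => ⟨_, rfl⟩, hv, fun k => by
      rw [← hf', hd, map_zero]⟩
  · rintro ⟨z, h1, h2, h3⟩
    choose y hy using h1
    obtain ⟨⟨v, d⟩, rfl⟩ := (cd R (Γ := (σ → R) × Δ)).surjective y
    refine ⟨v, fun s => (h2 s).trans (hy _).symm, (hS v).2 ⟨d, fun k => hφ ?_⟩⟩
    rw [hf', map_zero, ← h3 k]
    exact congrArg _ (funext hy)

end Transfer

section Down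

variable {L : Type} [Field L] [Algebra R L] [IsFractionRing R L] {Λ : Type} [Ctx L Λ]

theorem Pol.down [IsDomain R] {f : Λ → L} (hf : Pol f) :
    ∃ (f' : (Ctx.ι L Λ → R) × R → R) (E : R) (m : ℕ), PF R f' ∧ E ≠ 0 ∧
      ∀ (g : Λ) (n : Ctx.ι L Λ → R) (D : R),
        (∀ j, algebraMap R L (n j) = algebraMap R L D * cd L g j) →
          algebraMap R L (f' (n, D)) = algebraMap R L (E * D ^ m) * f g := by
  induction hf with
  | const c =>
    obtain ⟨a, b, hb, rfl⟩ := IsFractionRing.div_surjective (A := R) c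
    have hb' := nonZeroDivisors.ne_zero hb
    refine ⟨fun _ => a, b, 0, by fun_prop, hb', fun g n D _ => ?_⟩
    have : algebraMap R L b ≠ 0 := by simpa using hb'
    simp only [pow_zero, mul_one]
    field_simp
  | var j => exact ⟨fun v => v.1 j, 1, 1, by fun_prop, one_ne_zero, fun g n D h => by simp [h]⟩
  | add _ _ h1 h2 =>
    obtain ⟨f1, E1, m1, a1, e1, b1⟩ := h1
    obtain ⟨f2, E2, m2, a2, e2, b2⟩ := h2
    refine ⟨fun v => E2 * v.2 ^ m2 * f1 v + E1 * v.2 ^ m1 * f2 v, E1 * E2, m1 + m2, by fun_prop,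
      mul_ne_zero e1 e2, fun g n D h => ?_⟩
    simp only [map_add, map_mul, map_pow, b1 g n D h, b2 g n D h]
    ring
  | mul _ _ h1 h2 =>
    obtain ⟨f1, E1, m1, a1, e1, b1⟩ := h1
    obtain ⟨f2, E2, m2, a2, e2, b2⟩ := h2
    refine ⟨fun v => f1 v * f2 v, E1 * E2, m1 + m2, by fun_prop,
      mul_ne_zero e1 e2, fun g n D h => ?_⟩
    simp only [map_mul, map_pow, b1 g n D h, b2 g n D h]
    ring

/-- Transfer from the field of fractions. -/
theorem Dio.down [IsDomain R] (h0 : Dio R fun x : R => x ≠ 0) {σ : Type} [Finite σ]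
    {S : (σ → L) → Prop} (h : Dio L S) :
    Dio R fun v : σ → R => S fun s => algebraMap R L (v s) := by
  obtain ⟨Δ, _, κ, _, p, hp, hS⟩ := h
  choose f E m hf hE hf' using fun k => (pf_iff.1 (hp k)).down (R := R)
  have : Dio R fun v : σ → R => ∃ z : (Ctx.ι L ((σ → L) × Δ) → R) × R, z.2 ≠ 0 ∧
      (∀ s, z.1 (Sum.inl (s, ())) = z.2 * v s) ∧ ∀ k, f k z = 0 :=
    .ex (.and (h0.comp (by fun_prop)) (.and
      (.all fun s => .eq (by fun_prop) (by fun_prop)) (.all fun k => .eq (by fun_prop) (by fun_prop))))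
  have hinj := IsFractionRing.injective R L
  refine this.congr fun v => (hS _).trans ⟨?_, ?_⟩
  · rintro ⟨d, hd⟩
    obtain ⟨D, hD⟩ := IsLocalization.exist_integer_multiples_of_finite (nonZeroDivisors R)
      (cd L ((fun s => algebraMap R L (v s)), d))
    choose n hn using hD
    simp only [Algebra.smul_def] at hn
    refine ⟨(n, D), nonZeroDivisors.ne_zero D.2, fun s => hinj ?_, fun k => hinj ?_⟩
    · rw [map_mul]
      exact hn _
    · rw [hf' k _ n D hn, hd, mul_zero, map_zero]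
  · rintro ⟨⟨n, D⟩, h1, h2, h3⟩
    have hD : algebraMap R L D ≠ 0 := by simpa using h1
    refine ⟨(cd L).symm fun j => algebraMap R L (n (Sum.inr j)) / algebraMap R L D, fun k => ?_⟩
    have := hf' k ((fun s => algebraMap R L (v s)),
      (cd L).symm fun j => algebraMap R L (n (Sum.inr j)) / algebraMap R L D) n D (by
        rintro (⟨s, ⟨⟩⟩ | j)
        · exact (congrArg _ (h2 s)).trans (map_mul _ _ _)
        · change _ = _ * cd L ((cd L).symm _) j
          rw [Equiv.apply_symm_apply]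
          field_simp)
    rw [h3, map_zero, eq_comm, mul_eq_zero] at this
    exact this.resolve_left (by simpa using ⟨hE k, fun h => absurd h h1⟩)

end Down

end Pool.Agent.MP_a59382_lc.H18
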