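import Pool.Agent.MP_a59382_lc.H18.Blk

/-!
Bounded universal quantifiers over `F[X]`; recursively enumerable sets are diophantine.
-/

set_option autoImplicit false
set_option linter.unusedSectionVars false

namespace Pool.Agent.MP_a59382_lc.H18

open Polynomial Finset

variable {F : Type} [Field F] [Finite F] {Γ Θ : Type} [Ctx F[X] Γ] [Ctx F[X] Θ]

/-- Geometric sums. -/
def Geo (a P J : F[X]) : Prop := ∃ V, Pw a P V ∧ J * (a - 1) = V - 1

theorem geo_iff {a : F[X]} (ha : 0 < a.natDegree) (W : ℕ) (J : F[X]) :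
    Geo a (X ^ W) J ↔ J = ∑ k ∈ range W, a ^ k := by
  have h : a - 1 ≠ 0 := fun e => by simp [sub_eq_zero.1 e] at ha
  simp only [Geo, pw_iff, exists_eq_left, ← geom_sum_mul, mul_left_inj' h]

/-- The coordinatewise block code of a sequence of points. -/
noncomputable def pk (N W : ℕ) (θ : ℕ → Θ) : Θ :=
  (cd F[X]).symm fun j => ev (X ^ N : F[X]) W fun k => cd F[X] (θ k) j

/-- All coordinates have degree below `N`. -/
def Small (F : Type) [Field F] [Ctx F[X] Θ] (N W : ℕ) (θ : ℕ → Θ) : Prop :=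
  ∀ k < W, ∀ j, (cd F[X] (θ k) j).natDegree < N

theorem ex_small (W : ℕ) (θ : ℕ → Θ) (n : ℕ) : ∃ N, n < N ∧ Small F N W θ := by
  obtain ⟨M, hM⟩ := Finite.exists_le fun x : Fin W × Ctx.ι F[X] Θ =>
    (cd F[X] (θ x.1) x.2).natDegree
  exact ⟨M + n + 1, by omega, fun k hk j => (hM (⟨k, hk⟩, j)).trans_lt (by omega)⟩

theorem xp_inj {i j : ℕ} : (X ^ i : F[X]) = X ^ j ↔ i = j :=
  ⟨fun h => by simpa using congrArg natDegree h, fun h => by rw [h]⟩

/-- The pairing function on exponents. -/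
def Pr (a b c : F[X]) : Prop := ∃ i j, a = X ^ i ∧ b = X ^ j ∧ c = X ^ Nat.pair i j

/-- The graph of `f` on exponents. -/
def Gr (f : ℕ →. ℕ) (a b : F[X]) : Prop := ∃ n m, a = X ^ n ∧ b = X ^ m ∧ m ∈ f n

/-- There is a chain of steps `S` of the given length between the given end points. -/
def Chain (S : Γ × F[X] × F[X] × F[X] → Prop) (x : Γ × F[X] × F[X] × F[X]) : Prop :=
  ∃ W, x.2.1 = X ^ W ∧ ∃ y : ℕ → F[X], y 0 = x.2.2.1 ∧ y W = x.2.2.2 ∧
    ∀ k < W, S (x.1, X ^ k, y k, y (k + 1))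

theorem Dio.app {S : F[X] → F[X] → Prop} (h : Dio F[X] fun x : F[X] × F[X] => S x.1 x.2)
    {f g : Γ → F[X]} (hf : PF F[X] f) (hg : PF F[X] g) : Dio F[X] fun x => S (f x) (g x) :=
  h.comp (f := fun x => (f x, g x)) (by fun_prop)

namespace Base

variable (B : Base F)
include B

theorem dgeo {f g h : Γ → F[X]} (hf : PF F[X] f) (hg : PF F[X] g) (hh : PF F[X] h) :
    Dio F[X] fun x => Geo (f x) (g x) (h x) := by
  refine .ex (.and (B.dpw ?_ ?_ ?_) (.eq ?_ ?_)) <;> fun_prop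

theorem vec_pol {f : Θ → F[X]} (hf : Pol f) :
    ∃ (c : ℕ) (Φ : F[X] × F[X] × Θ × F[X] → Prop), Dio F[X] Φ ∧
      ∀ (N₀ N W : ℕ) (θ : ℕ → Θ), 0 < N₀ → c * N₀ ≤ N → Small F N₀ W θ →
        0 < c ∧ (∀ k < W, (f (θ k)).natDegree < c * N₀) ∧
        ∀ Z, Φ (X ^ N, X ^ W, pk (F := F) N W θ, Z) ↔ Z = ev (X ^ N) W fun k => f (θ k) := by
  induction hf with
  | const a =>
    refine ⟨a.natDegree + 1, fun x => ∃ J, Geo x.1 x.2.1 J ∧ x.2.2.2 = a * J, ?_,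
      fun N₀ N W θ h0 h1 _ => ⟨by omega, fun _ _ => by nlinarith, fun Z => ?_⟩⟩
    · refine .ex (.and (B.dgeo ?_ ?_ ?_) (.eq ?_ ?_)) <;> fun_prop
    · have : 0 < (X ^ N : F[X]).natDegree := by
        rw [natDegree_X_pow]
        nlinarith
      simp only [geo_iff this, exists_eq_left, ev, mul_sum]
  | var j =>
    refine ⟨1, fun x => x.2.2.2 = cd F[X] x.2.2.1 j,
      .eq (by fun_prop) ((PF.co j).comp (by fun_prop)),
      fun N₀ N W θ h0 h1 h2 => ⟨one_pos, fun k hk => by simpa using h2 k hk j, fun Z => ?_⟩⟩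
    simp [pk]
  | add _ _ h1 h2 =>
    obtain ⟨c, Φ, a1, a2⟩ := h1
    obtain ⟨c', Φ', b1, b2⟩ := h2
    refine ⟨c + c', fun x => ∃ Z Z', Φ (x.1, x.2.1, x.2.2.1, Z) ∧ Φ' (x.1, x.2.1, x.2.2.1, Z') ∧
      x.2.2.2 = Z + Z', ?_, fun N₀ N W θ h0 h1 h2 => ?_⟩
    · refine .ex (.ex (.and (a1.comp ?_) (.and (b1.comp ?_) (.eq ?_ ?_)))) <;> fun_prop
    rw [add_mul] at h1 ⊢
    obtain ⟨a3, a4, a5⟩ := a2 N₀ N W θ h0 (by omega) h2
    obtain ⟨-, b4, b5⟩ := b2 N₀ N W θ h0 (by omega) h2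
    refine ⟨by omega, fun k hk => (natDegree_add_le _ _).trans_lt (max_lt ?_ ?_), fun Z => ?_⟩
    · exact (a4 k hk).trans_le (by omega)
    · exact (b4 k hk).trans_le (by omega)
    · simp only [a5, b5, exists_and_left, exists_eq_left, ev, add_mul, sum_add_distrib]
  | mul _ _ h1 h2 =>
    obtain ⟨c, Φ, a1, a2⟩ := h1
    obtain ⟨c', Φ', b1, b2⟩ := h2
    refine ⟨c + c', fun x => ∃ Z Z', Φ (x.1, x.2.1, x.2.2.1, Z) ∧ Φ' (x.1, x.2.1, x.2.2.1, Z') ∧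
      Had x.1 x.2.1 Z Z' x.2.2.2, ?_, fun N₀ N W θ h0 h1 h2 => ?_⟩
    · refine .ex (.ex (.and (a1.comp ?_) (.and (b1.comp ?_) (B.dhad ?_ ?_ ?_ ?_ ?_)))) <;> fun_prop
    rw [add_mul] at h1 ⊢
    obtain ⟨a3, a4, a5⟩ := a2 N₀ N W θ h0 (by omega) h2
    obtain ⟨-, b4, b5⟩ := b2 N₀ N W θ h0 (by omega) h2
    refine ⟨by omega, fun k hk => natDegree_mul_le.trans_lt (Nat.add_lt_add (a4 k hk) (b4 k hk)),
      fun Z => ?_⟩
    simp only [a5, b5, exists_and_left, exists_eq_left]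
    exact had_iff (by nlinarith) (fun k hk => (a4 k hk).trans_le (by omega))
      (fun k hk => (b4 k hk).trans_le (by omega)) Z

theorem vec {S : Θ → Prop} (h : Dio F[X] S) : ∃ Ψ : F[X] × F[X] × Θ → Prop, Dio F[X] Ψ ∧
    ∀ (N W : ℕ) (θ : ℕ → Θ), 0 < N → Small F N W θ →
      (Ψ (X ^ N, X ^ W, pk (F := F) N W θ) ↔ ∀ k < W, S (θ k)) := by
  obtain ⟨Δ, _, κ, _, p, hp, hS⟩ := h
  choose c Φ hΦ hΦ' using fun i => B.vec_pol (pf_iff.1 (hp i))
  obtain ⟨C, hC⟩ := Finite.exists_le c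
  refine ⟨fun x => ∃ (U V : F[X]) (θ : Θ) (d₀ d : Δ), (∃ n, U = X ^ n) ∧
    x.1.natDegree < U.natDegree ∧ Pw U x.2.1 V ∧
    (∀ j, Sub x.1 x.2.1 (U ^ C) (cd F[X] x.2.2 j) (cd F[X] θ j)) ∧
    (∀ j, (cd F[X] d₀ j).degree < V.degree ∧
      Sub U x.2.1 (U ^ C) (cd F[X] d₀ j) (cd F[X] d j)) ∧
    ∀ i, Φ i (U ^ C, x.2.1, (θ, d), 0), ?_, fun N W θ hN hθ => ?_⟩
  · refine .ex (.ex (.ex (.ex (.ex (.and (B.dpow ?_) (.and (B.dnl ?_ ?_) (.and (B.dpw ?_ ?_ ?_)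
      (.and (.all fun j => B.dsub ?_ ?_ ?_ ((PF.co j).comp ?_) ((PF.co j).comp ?_))
      (.and (.all fun j => .and (B.dlt ((PF.co j).comp ?_) ?_)
        (B.dsub ?_ ?_ ?_ ((PF.co j).comp ?_) ((PF.co j).comp ?_)))
      (.all fun i => (hΦ i).comp ?_)))))))))) <;> fun_prop
  have key : ∀ (N₀ : ℕ) (d : ℕ → Δ), N < N₀ → Small F N₀ W d → ∀ i,
      Φ i ((X ^ N₀) ^ C, X ^ W, (pk (F := F) (N₀ * C) W θ, pk (F := F) (N₀ * C) W d), 0) ↔
        ∀ k < W, p i (θ k, d k) = 0 := by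
    intro N₀ d h1 h2 i
    have h3 : c i * N₀ ≤ N₀ * C := by
      rw [mul_comm]
      exact Nat.mul_le_mul_left _ (hC i)
    obtain ⟨a1, a2, a3⟩ := hΦ' i N₀ (N₀ * C) W (fun k => (θ k, d k)) (by omega) h3 (by
      rintro k hk (j | j)
      · exact (hθ k hk j).trans h1
      · exact h2 k hk j)
    rw [← pow_mul]
    refine (a3 0).trans ⟨fun e k hk => ?_, fun e => ?_⟩
    · refine (ev_inj (y := fun _ => 0) (fun k _ => ?_) (fun k hk => (a2 k hk).trans_le h3)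
        (by rw [← e]; simp [ev]) k hk).symm
      rw [natDegree_zero]
      exact (Nat.mul_pos a1 (by omega)).trans_le h3
    · rw [ev_congr e]
      simp [ev]
  have hsub : ∀ (a r : F[X]) (j), Sub (X ^ N) (X ^ W) a (cd F[X] (pk (F := F) N W θ) j) r ↔
      r = ev a W fun k => cd F[X] (θ k) j := fun a r j => by
    rw [pk, Equiv.apply_symm_apply]
    exact sub_iff hN (fun k hk => hθ k hk j) a r
  constructor
  · rintro ⟨_, V, θ', d₀, d, ⟨N₀, rfl⟩, h1, h2, h3, h4, h5⟩ k hk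
    simp only [natDegree_X_pow, pw_iff, hsub] at h1 h2 h3
    rw [← pow_mul] at h2
    choose y hy hy' using fun j => ex_ev (N := N₀) (by omega) W _ (h2 ▸ (h4 j).1)
    have e1 : θ' = pk (F := F) (N₀ * C) W θ := by
      rw [pk, Equiv.eq_symm_apply, pow_mul]
      exact funext h3
    have e2 : d = pk (F := F) (N₀ * C) W fun k => ((cd F[X]).symm fun j => y j k : Δ) := by
      rw [pk, Equiv.eq_symm_apply, pow_mul]
      funext j
      have := (h4 j).2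
      rw [hy', sub_iff (by omega) fun k _ => hy j k] at this
      simpa using this
    rw [e1, e2] at h5
    exact (hS _).2 ⟨_, fun i => (key N₀ _ h1 (fun k _ j => by simpa using hy j k) i).1 (h5 i) k hk⟩
  · intro h
    have : ∀ k, ∃ d : Δ, k < W → ∀ i, p i (θ k, d) = 0 := fun k => by
      by_cases hk : k < W
      · obtain ⟨d, hd⟩ := (hS _).1 (h k hk)
        exact ⟨d, fun _ => hd⟩
      · exact ⟨(cd F[X]).symm 0, fun h => absurd h hk⟩
    choose d hd using this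
    obtain ⟨N₀, h1, h2⟩ := ex_small (F := F) W d N
    refine ⟨X ^ N₀, _, pk (F := F) (N₀ * C) W θ, pk (F := F) N₀ W d, pk (F := F) (N₀ * C) W d,
      ⟨_, rfl⟩, by simpa using h1, (pw_iff _ _ _).2 rfl, fun j => (hsub _ _ j).2 ?_,
      fun j => ⟨?_, ?_⟩, fun i => (key N₀ d h1 h2 i).2 fun k hk => hd k hk i⟩
    · simp [pk, pow_mul]
    · rw [pk, Equiv.apply_symm_apply, ← pow_mul]
      exact deg_ev fun k hk => h2 k hk j
    · simp only [pk, Equiv.apply_symm_apply, pow_mul]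
      exact (sub_iff (by omega) (fun k hk => h2 k hk j) _ _).2 rfl

theorem chain {S : Γ × F[X] × F[X] × F[X] → Prop} (h : Dio F[X] S) : Dio F[X] (Chain S) := by
  obtain ⟨Ψ, hΨ, hΨ'⟩ := B.vec h
  have : Dio F[X] fun x : Γ × F[X] × F[X] × F[X] => (∃ n, x.2.1 = X ^ n) ∧
      ∃ U J I V Y Y' : F[X], (∃ n, U = X ^ n) ∧ (∀ j, (cd F[X] x j).natDegree < U.natDegree) ∧
        Geo U x.2.1 J ∧ Geo (X * U) x.2.1 I ∧ Pw U x.2.1 V ∧ Y.degree < V.degree ∧
        Y'.degree < V.degree ∧ Y + x.2.2.2 * V = x.2.2.1 + U * Y' ∧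
        Ψ (U, x.2.1, (cd F[X]).symm fun j => cd F[X] x.1 j * J, I, Y, Y') := by
    refine .and (B.dpow ?_) (.ex (.ex (.ex (.ex (.ex (.ex (.and (B.dpow ?_)
      (.and (.all fun j => B.dnl ((PF.co j).comp ?_) ?_) (.and (B.dgeo ?_ ?_ ?_)
      (.and (B.dgeo ?_ ?_ ?_) (.and (B.dpw ?_ ?_ ?_) (.and (B.dlt ?_ ?_) (.and (B.dlt ?_ ?_)
      (.and (.eq ?_ ?_) (hΨ.comp (.mk ?_ (.mk ?_ (.mk
        (.unco fun j => .mul ((PF.co j).comp ?_) ?_) ?_)))))))))))))))))) <;> fun_prop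
  have key : ∀ (g : Γ) (N W : ℕ) (a b : ℕ → F[X]), W < N →
      (∀ j, (cd F[X] g j).natDegree < N) → (∀ k < W, (a k).natDegree < N) →
      (∀ k < W, (b k).natDegree < N) →
      (Ψ (X ^ N, X ^ W, (cd F[X]).symm fun j => cd F[X] g j * ∑ k ∈ range W, (X ^ N) ^ k,
        ∑ k ∈ range W, (X * X ^ N) ^ k, ev (X ^ N) W a, ev (X ^ N) W b) ↔
      ∀ k < W, S (g, X ^ k, a k, b k)) := by
    intro g N W a b h1 h2 h3 h4
    rw [← hΨ' N W (fun k => (g, X ^ k, a k, b k)) (by omega) (by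
      rintro k hk (j | j | j | j)
      · exact h2 j
      · exact (natDegree_X_pow k).trans_lt (by omega)
      · exact h3 k hk
      · exact h4 k hk)]
    simp only [mul_sum, mul_pow]
    rfl
  have hg : ∀ N, 0 < (X * X ^ N : F[X]).natDegree := fun N => by
    rw [← pow_succ', natDegree_X_pow]
    omega
  refine this.congr fun ⟨g, P, y₀, y₁⟩ => ⟨?_, ?_⟩
  · rintro ⟨W, rfl, y, rfl, rfl, hy⟩
    obtain ⟨N, h1, h2⟩ := ex_small (F := F) (W + 1) (fun k => (g, y k)) W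
    have h3 : ∀ k < W + 1, (y k).natDegree < N := fun k hk => h2 k hk (Sum.inr ())
    have h4 : ∀ j, (cd F[X] g j).natDegree < N := fun j => h2 0 W.succ_pos (Sum.inl j)
    refine ⟨⟨W, rfl⟩, X ^ N, _, _, _, ev (X ^ N) W y, ev (X ^ N) W fun k => y (k + 1), ⟨N, rfl⟩,
      ?_, (geo_iff (by rw [natDegree_X_pow]; omega) _ _).2 rfl, (geo_iff (hg N) _ _).2 rfl,
      (pw_iff _ _ _).2 rfl, ?_, ?_, ?_, (key g N W _ _ h1 h4 (fun k hk => h3 k (by omega))
        fun k hk => h3 _ (by omega)).2 hy⟩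
    · rw [natDegree_X_pow]
      rintro (j | j | j | j)
      · exact h4 j
      · exact (natDegree_X_pow W).trans_lt h1
      · exact h3 0 W.succ_pos
      · exact h3 W W.lt_succ_self
    · rw [← pow_mul]
      exact deg_ev fun k hk => h3 k (by omega)
    · rw [← pow_mul]
      exact deg_ev fun k hk => h3 _ (by omega)
    · rw [← ev_succ', ev, ev, sum_range_succ]
  · rintro ⟨⟨W, rfl⟩, _, J, I, V, Y, Y', ⟨N, rfl⟩, h1, h2, h3, h4, h5, h6, h7, h8⟩
    rw [natDegree_X_pow] at h1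
    have hW : W < N := (natDegree_X_pow W).symm.trans_lt (h1 (Sum.inr (Sum.inl ())))
    rw [geo_iff (by rw [natDegree_X_pow]; omega)] at h2
    rw [geo_iff (hg N)] at h3
    rw [pw_iff] at h4
    subst h2 h3 h4
    rw [← pow_mul] at h5 h6
    obtain ⟨a, ha, rfl⟩ := ex_ev (by omega) W _ h5
    obtain ⟨b, hb, rfl⟩ := ex_ev (by omega) W _ h6
    rw [key g N W a b hW (fun j => h1 (Sum.inl j)) (fun k _ => ha k) fun k _ => hb k] at h8
    have e := ev_inj (N := N) (W := W + 1) (y := fun k => if k < W then a k else y₁)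
      (z := fun k => Nat.casesOn k y₀ b) (fun k _ => by
        split_ifs
        · exact ha k
        · exact h1 (Sum.inr (Sum.inr (Sum.inr ())))) (fun k _ => by
        cases k
        · exact h1 (Sum.inr (Sum.inr (Sum.inl ())))
        · exact hb _) (by
        rw [ev_succ' _ _ fun k => Nat.casesOn k y₀ b, ev, sum_range_succ, if_neg (lt_irrefl W)]
        refine Eq.trans ?_ h7
        congr 1
        exact sum_congr rfl fun k hk => by rw [if_pos (mem_range.1 hk)])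
    refine ⟨W, rfl, fun k => Nat.casesOn k y₀ b, rfl, ?_, fun k hk => ?_⟩
    · simpa using (e W W.lt_succ_self).symm
    · have := e k (by omega)
      rw [if_pos hk] at this
      simpa [← this] using h8 k hk

theorem dpr {f g h : Γ → F[X]} (hf : PF F[X] f) (hg : PF F[X] g) (hh : PF F[X] h) :
    Dio F[X] fun x => Pr (f x) (g x) (h x) := by
  have : Dio F[X] fun x => (∃ n, f x = X ^ n) ∧ (∃ n, g x = X ^ n) ∧
      (((f x).natDegree < (g x).natDegree ∧ ∃ V, Pw (g x) (g x) V ∧ h x = V * f x) ∨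
      ((g x).natDegree < (f x * X).natDegree ∧ ∃ V, Pw (f x) (f x) V ∧ h x = V * f x * g x)) := by
    refine .and (B.dpow ?_) (.and (B.dpow ?_) (.or (.and (B.dnl ?_ ?_) (.ex (.and (B.dpw ?_ ?_ ?_)
      (.eq ?_ ?_)))) (.and (B.dnl ?_ ?_) (.ex (.and (B.dpw ?_ ?_ ?_) (.eq ?_ ?_)))))) <;> fun_prop
  refine this.congr fun x => ⟨?_, ?_⟩
  · rintro ⟨i, j, h1, h2, h3⟩
    refine ⟨⟨i, h1⟩, ⟨j, h2⟩, ?_⟩
    simp only [h1, h2, h3, pw_iff, exists_eq_left, ← pow_succ, ← pow_mul, ← pow_add,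
      natDegree_X_pow, xp_inj, Nat.pair]
    split_ifs <;> omega
  · rintro ⟨⟨i, h1⟩, ⟨j, h2⟩, h3⟩
    refine ⟨i, j, h1, h2, ?_⟩
    simp only [h1, h2, pw_iff, exists_eq_left, ← pow_succ, ← pow_mul, ← pow_add,
      natDegree_X_pow] at h3
    rcases h3 with ⟨h3, h4⟩ | ⟨h3, h4⟩
    · rw [h4, Nat.pair, if_pos h3]
    · rw [h4, Nat.pair, if_neg (by omega)]

theorem dgr {f : ℕ →. ℕ} (hf : Nat.Partrec f) : Dio F[X] fun x : F[X] × F[X] => Gr f x.1 x.2 := by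
  induction hf with
  | zero =>
    have : Dio F[X] fun x : F[X] × F[X] => (∃ n, x.1 = X ^ n) ∧ x.2 = 1 := by
      refine .and (B.dpow ?_) (.eq ?_ ?_) <;> fun_prop
    exact this.congr fun x => by simp [Gr, pure, PFun.pure]
  | succ =>
    have : Dio F[X] fun x : F[X] × F[X] => (∃ n, x.1 = X ^ n) ∧ x.2 = x.1 * X := by
      refine .and (B.dpow ?_) (.eq ?_ ?_) <;> fun_prop
    refine this.congr fun x => ⟨?_, ?_⟩
    · rintro ⟨n, m, h1, h2, h3⟩
      rw [PFun.coe_val, Part.mem_some_iff] at h3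
      exact ⟨⟨n, h1⟩, by rw [h1, h2, h3, pow_succ]⟩
    · rintro ⟨⟨n, h1⟩, h2⟩
      exact ⟨n, n + 1, h1, by rw [h2, h1, pow_succ], by simp⟩
  | left =>
    have : Dio F[X] fun x : F[X] × F[X] => ∃ b, Pr x.2 b x.1 := by
      refine .ex (B.dpr ?_ ?_ ?_) <;> fun_prop
    refine this.congr fun x => ⟨?_, ?_⟩
    · rintro ⟨n, m, h1, h2, h3⟩
      rw [PFun.coe_val, Part.mem_some_iff] at h3
      exact ⟨_, m, n.unpair.2, h2, rfl, by rw [h1, h3, Nat.pair_unpair]⟩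
    · rintro ⟨_, i, j, h1, -, h2⟩
      exact ⟨_, i, h2, h1, by simp⟩
  | right =>
    have : Dio F[X] fun x : F[X] × F[X] => ∃ a, Pr a x.2 x.1 := by
      refine .ex (B.dpr ?_ ?_ ?_) <;> fun_prop
    refine this.congr fun x => ⟨?_, ?_⟩
    · rintro ⟨n, m, h1, h2, h3⟩
      rw [PFun.coe_val, Part.mem_some_iff] at h3
      exact ⟨_, n.unpair.1, m, rfl, h2, by rw [h1, h3, Nat.pair_unpair]⟩
    · rintro ⟨_, i, j, -, h1, h2⟩
      exact ⟨_, j, h2, h1, by simp⟩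
  | @pair f g _ _ h1 h2 =>
    have : Dio F[X] fun x : F[X] × F[X] => ∃ a b, Gr f x.1 a ∧ Gr g x.1 b ∧ Pr a b x.2 := by
      refine .ex (.ex (.and (h1.app ?_ ?_)
        (.and (h2.app ?_ ?_) (B.dpr ?_ ?_ ?_)))) <;> fun_prop
    refine this.congr fun x => ⟨?_, ?_⟩
    · rintro ⟨n, m, h1, h2, h3⟩
      simp only [Seq.seq, Part.map_eq_map, Part.mem_bind_iff,
        Part.mem_map_iff] at h3
      obtain ⟨_, ⟨i, hi, rfl⟩, j, hj, rfl⟩ := h3
      exact ⟨_, _, ⟨n, i, h1, rfl, hi⟩, ⟨n, j, h1, rfl, hj⟩, i, j, rfl, rfl, h2⟩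
    · rintro ⟨_, _, ⟨n, i, h1, rfl, hi⟩, ⟨n', j, h2, rfl, hj⟩, i', j', e1, e2, h3⟩
      rw [h1] at h2
      obtain rfl := xp_inj.1 h2
      obtain rfl := xp_inj.1 e1
      obtain rfl := xp_inj.1 e2
      refine ⟨n, _, h1, h3, ?_⟩
      simp only [Seq.seq, Part.map_eq_map, Part.mem_bind_iff,
        Part.mem_map_iff]
      exact ⟨_, ⟨i, hi, rfl⟩, j, hj, rfl⟩
  | @comp f g _ _ h1 h2 =>
    have : Dio F[X] fun x : F[X] × F[X] => ∃ a, Gr g x.1 a ∧ Gr f a x.2 := by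
      refine .ex (.and (h2.app ?_ ?_)
        (h1.app ?_ ?_)) <;> fun_prop
    refine this.congr fun x => ⟨?_, ?_⟩
    · rintro ⟨n, m, h1, h2, h3⟩
      obtain ⟨i, hi, h4⟩ := Part.mem_bind_iff.1 h3
      exact ⟨_, ⟨n, i, h1, rfl, hi⟩, i, m, rfl, h2, h4⟩
    · rintro ⟨_, ⟨n, i, h1, rfl, hi⟩, i', m, e, h2, h4⟩
      obtain rfl := xp_inj.1 e
      exact ⟨n, m, h1, h2, Part.mem_bind_iff.2 ⟨i, hi, h4⟩⟩
  | @prec f g _ _ h1 h2 =>
    have hS : Dio F[X] fun x : F[X] × F[X] × F[X] × F[X] =>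
        ∃ u w, Pr x.2.1 x.2.2.1 u ∧ Pr x.1 u w ∧ Gr g w x.2.2.2 := by
      refine .ex (.ex (.and (B.dpr ?_ ?_ ?_) (.and (B.dpr ?_ ?_ ?_)
        (h2.app ?_ ?_)))) <;> fun_prop
    have : Dio F[X] fun x : F[X] × F[X] => ∃ a P y, Pr a P x.1 ∧ Gr f a y ∧
        Chain (fun x : F[X] × F[X] × F[X] × F[X] =>
          ∃ u w, Pr x.2.1 x.2.2.1 u ∧ Pr x.1 u w ∧ Gr g w x.2.2.2) (a, P, y, x.2) := by
      refine .ex (.ex (.ex (.and (B.dpr ?_ ?_ ?_) (.and
        (h1.app ?_ ?_) ((B.chain hS).comp ?_))))) <;> fun_prop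
    refine this.congr fun x => ⟨?_, ?_⟩
    · rintro ⟨n, m, h1, h2, h3⟩
      obtain ⟨a, W, rfl⟩ : ∃ a W, n = Nat.pair a W := ⟨_, _, (Nat.pair_unpair n).symm⟩
      simp only [Nat.unpaired, Nat.unpair_pair] at h3
      obtain ⟨s, s1, s2, s3⟩ : ∃ s : ℕ → ℕ, s 0 ∈ f a ∧ s W = m ∧
          ∀ k < W, s (k + 1) ∈ g (Nat.pair a (Nat.pair k (s k))) := by
        clear h1 h2
        induction W generalizing m with
        | zero => exact ⟨fun _ => m, h3, rfl, fun _ h => by omega⟩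
        | succ W ih =>
          obtain ⟨i, hi, h4⟩ := Part.mem_bind_iff.1 h3
          obtain ⟨s, s1, rfl, s3⟩ := ih i hi
          refine ⟨Function.update s (W + 1) m, by simpa using s1, by simp, fun k hk => ?_⟩
          rw [Function.update_of_ne (show k ≠ W + 1 by omega)]
          rcases Nat.lt_succ_iff_lt_or_eq.1 hk with hk | rfl
          · rw [Function.update_of_ne (by omega)]
            exact s3 k hk
          · simpa using h4
      exact ⟨_, _, _, ⟨a, W, rfl, rfl, h1⟩, ⟨a, s 0, rfl, rfl, s1⟩, W, rfl, fun k => X ^ s k, rfl,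
        by simp only [h2, s2], fun k hk => ⟨_, _, ⟨k, s k, rfl, rfl, rfl⟩, ⟨a, _, rfl, rfl, rfl⟩,
          _, _, rfl, rfl, s3 k hk⟩⟩
    · rintro ⟨_, _, _, ⟨a, W, rfl, rfl, h1⟩, ⟨a', m, e, rfl, h2⟩, W', e', y, y0, y1, hy⟩
      obtain rfl := xp_inj.1 e
      obtain rfl := xp_inj.1 e'
      have key : ∀ k ≤ W, ∃ i, y k = X ^ i ∧ i ∈ (k.rec (f a) fun y IH => do
          let i ← IH; g (Nat.pair a (Nat.pair y i)) : Part ℕ) := by
        intro k
        induction k with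
        | zero => exact fun _ => ⟨m, y0, h2⟩
        | succ k ih =>
          intro hk
          obtain ⟨i, e1, hi⟩ := ih (by omega)
          obtain ⟨_, _, ⟨k', i', e2, e3, rfl⟩, ⟨a', j, e4, e5, rfl⟩, n, l, e6, e7, hl⟩ :=
            hy k (by omega)
          simp only [e1, xp_inj] at e2 e3 e4 e5 e6 e7
          subst e2 e3 e4 e5 e6
          exact ⟨l, e7, Part.mem_bind_iff.2 ⟨_, hi, hl⟩⟩
      obtain ⟨i, e1, hi⟩ := key W le_rfl
      exact ⟨_, i, h1, y1.symm.trans e1, by simpa only [Nat.unpaired, Nat.unpair_pair] using hi⟩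
  | @rfind f _ h1 =>
    have hS : Dio F[X] fun x : F[X] × F[X] × F[X] × F[X] =>
        ∃ w v, Pr x.1 x.2.1 w ∧ Gr f w (v * X) := by
      refine .ex (.ex (.and (B.dpr ?_ ?_ ?_)
        (h1.app ?_ ?_))) <;> fun_prop
    have : Dio F[X] fun x : F[X] × F[X] => (∃ w, Pr x.1 x.2 w ∧ Gr f w 1) ∧
        Chain (fun x : F[X] × F[X] × F[X] × F[X] =>
          ∃ w v, Pr x.1 x.2.1 w ∧ Gr f w (v * X)) (x.1, x.2, 0, 0) := by
      refine .and (.ex (.and (B.dpr ?_ ?_ ?_) (h1.app ?_ ?_)))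
        ((B.chain hS).comp ?_) <;> fun_prop
    refine this.congr fun x => ⟨?_, ?_⟩
    · rintro ⟨a, m, h1, h2, h3⟩
      simp only [Nat.mem_rfind, Part.map_eq_map, Part.mem_map_iff, decide_eq_true_eq,
        exists_eq_right, decide_eq_false_iff_not] at h3
      refine ⟨⟨_, ⟨a, m, h1, h2, rfl⟩, _, 0, rfl, by simp, h3.1⟩, m, h2, 0, rfl, rfl, fun k hk => ?_⟩
      obtain ⟨v, hv, h0⟩ := h3.2 hk
      obtain ⟨v, rfl⟩ := Nat.exists_eq_succ_of_ne_zero h0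
      exact ⟨_, X ^ v, ⟨a, k, h1, rfl, rfl⟩, _, _, rfl, (pow_succ _ _).symm, hv⟩
    · rintro ⟨⟨_, ⟨a, m, h1, h2, rfl⟩, n, i, e1, e2, hi⟩, W, e3, y, -, -, hy⟩
      obtain rfl := xp_inj.1 e1
      obtain rfl := xp_inj.1 (h2.symm.trans e3)
      obtain rfl := xp_inj.1 ((pow_zero _).trans e2)
      refine ⟨a, m, h1, h2, ?_⟩
      simp only [Nat.mem_rfind, Part.map_eq_map, Part.mem_map_iff, decide_eq_true_eq,
        exists_eq_right, decide_eq_false_iff_not]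
      refine ⟨hi, fun {k} hk => ?_⟩
      obtain ⟨_, v, ⟨a', k', e4, e5, rfl⟩, n, l, e6, e7, hl⟩ := hy k hk
      obtain rfl := xp_inj.1 (h1.symm.trans e4)
      obtain rfl := xp_inj.1 e5
      obtain rfl := xp_inj.1 e6
      refine ⟨l, hl, ?_⟩
      rintro rfl
      simpa using congrArg (eval 0) e7

/-- Recursively enumerable sets are diophantine on exponents. -/
theorem re {α σ : Type} [Primcodable α] [Finite σ] {p : α → Prop} (hp : REPred p)
    {π : σ → α → ℕ} (hπ : ∀ s, Computable (π s)) :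
    Dio F[X] fun w : σ → F[X] => ∃ a, p a ∧ ∀ s, w s = X ^ π s a := by
  have key : ∀ (f : ℕ →. ℕ) (g : σ → ℕ →. ℕ), Nat.Partrec f → (∀ s, Nat.Partrec (g s)) →
      Dio F[X] fun w : σ → F[X] => ∃ u z, Gr f u z ∧ ∀ s, Gr (g s) u (w s) := by
    intro f g hf hg
    refine .ex (.ex (.and ((B.dgr hf).app ?_ ?_) (.all fun s => (B.dgr (hg s)).app ?_ ?_))) <;>
      fun_prop
  refine (key _ _ hp hπ).congr fun w => ⟨?_, ?_⟩
  · rintro ⟨a, h1, h2⟩
    exact ⟨_, _, ⟨Encodable.encode a, Encodable.encode (), rfl, rfl, by simpa [h1] using ⟨(), rfl⟩⟩,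
      fun s => ⟨_, _, rfl, h2 s, by simp⟩⟩
  · rintro ⟨_, _, ⟨n, m, rfl, rfl, h1⟩, h2⟩
    simp only [Part.mem_bind_iff, Part.mem_coe, Option.mem_def, Part.mem_map_iff,
      Part.mem_assert_iff] at h1
    obtain ⟨a, ha, _, ⟨h3, -⟩, -⟩ := h1
    refine ⟨a, h3, fun s => ?_⟩
    obtain ⟨n', m', e, e', h4⟩ := h2 s
    obtain rfl := xp_inj.1 e
    simpa [ha, e', xp_inj] using h4

end Base

end Pool.Agent.MP_a59382_lc.H18
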