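import Pool.Agent.MP_a59382_lc.H18.Cod

/-!
Diophantine sets are listable; global function fields have listable presentations.
-/

set_option autoImplicit false
set_option linter.unusedSectionVars false

namespace Pool.Agent.MP_a59382_lc.H18

open Polynomial Encodable

section RE

variable {α β : Type} [Primcodable α] [Primcodable β]

theorem re_comp {p : β → Prop} (h : REPred p) {f : α → β} (hf : Computable f) :
    REPred fun a => p (f a) := Partrec.comp h hf

theorem re_and {p q : α → Prop} (h : REPred p) (h' : REPred q) : REPred fun a => p a ∧ q a :=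
  (Partrec.bind h (Partrec.comp h' Computable.fst).to₂).dom_re.of_eq fun a => by
    simp [Part.dom_iff_mem]

theorem re_all {σ : Type} [Finite σ] {p : σ → α → Prop} (h : ∀ s, REPred (p s)) :
    REPred fun a => ∀ s, p s a := by
  classical
  have := Fintype.ofFinite σ
  have key : ∀ s : Finset σ, REPred fun a => ∀ i ∈ s, p i a := fun s => by
    induction s using Finset.induction_on with
    | empty => exact Partrec.some.dom_re.of_eq fun a => by simp
    | insert a s _ ih => exact (re_and (h a) ih).of_eq fun v => by simp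
  exact (key Finset.univ).of_eq fun v => by simp

theorem ex_enum (β : Type) [Primcodable β] [Inhabited β] :
    ∃ g : ℕ → β, Computable g ∧ Function.Surjective g :=
  ⟨fun n => (decode n).getD default, Computable.decode.option_getD (.const _),
    fun b => ⟨encode b, by simp⟩⟩

theorem re_ex [Inhabited β] {p : α × β → Prop} (h : REPred p) : REPred fun a => ∃ b, p (a, b) := by
  obtain ⟨c, hc⟩ := Nat.Partrec.Code.exists_code.1 h
  obtain ⟨g, h1, h2⟩ := ex_enum (ℕ × β)
  refine (Partrec.rfindOpt (f := fun a k => c.evaln (g k).1 (encode (a, (g k).2)))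
    (Nat.Partrec.Code.primrec_evaln.to_comp.comp (((Computable.fst.comp
      (h1.comp .snd)).pair (.const c)).pair (Computable.encode.comp (Computable.fst.pair
      (Computable.snd.comp (h1.comp .snd)))))).to₂).dom_re.of_eq fun a => ?_
  have : ∀ b, (∃ x k, x ∈ c.evaln k (encode (a, b))) ↔ p (a, b) := fun b => by
    simp only [← Nat.Partrec.Code.evaln_complete, hc, encodek]
    simp
  simp only [Nat.rfindOpt_dom, ← this]
  rw [h2.exists (p := fun y => ∃ x, x ∈ c.evaln y.1 (encode (a, y.2))) |>.symm]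
  exact ⟨fun ⟨y, x, h⟩ => ⟨_, x, _, h⟩, fun ⟨b, x, k, h⟩ => ⟨(k, b), x, h⟩⟩

/-- A listable presentation. -/
def Pres {R : Type} [CommRing R] (ρ : α → R) : Prop := Function.Surjective ρ ∧
  (REPred fun x : α × α × α => ρ x.1 + ρ x.2.1 = ρ x.2.2) ∧
  REPred fun x : α × α × α => ρ x.1 * ρ x.2.1 = ρ x.2.2

variable {R : Type} [CommRing R]

theorem Pres.nat [Inhabited α] {ρ : α → R} (h : Pres ρ) : ∃ ρ' : ℕ → R, Pres ρ' := by
  obtain ⟨g, h1, h2⟩ := ex_enum α
  have : Computable fun x : ℕ × ℕ × ℕ => (g x.1, g x.2.1, g x.2.2) :=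
    (h1.comp .fst).pair ((h1.comp (Computable.fst.comp .snd)).pair
      (h1.comp (Computable.snd.comp .snd)))
  exact ⟨fun n => ρ (g n), h.1.comp h2, re_comp h.2.1 this, re_comp h.2.2 this⟩

/-- The codes of the values of `f` form a listable set. -/
def Rc (ρ : ℕ → R) (f : α → R) : Prop := REPred fun x : α × ℕ => f x.1 = ρ x.2

variable {ρ : ℕ → R} (P : Pres ρ)
include P

theorem Pres.op {op : R → R → R}
    (h : REPred fun x : ℕ × ℕ × ℕ => op (ρ x.1) (ρ x.2.1) = ρ x.2.2) {f g : α → R}
    (hf : Rc ρ f) (hg : Rc ρ g) : Rc ρ fun x => op (f x) (g x) := by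
  have a1 : Computable fun x : (α × ℕ) × ℕ × ℕ => x.1.1 := Computable.fst.comp .fst
  have a2 : Computable fun x : (α × ℕ) × ℕ × ℕ => x.2.1 := Computable.fst.comp .snd
  have a3 : Computable fun x : (α × ℕ) × ℕ × ℕ => x.2.2 := Computable.snd.comp .snd
  refine (re_ex (re_and (re_comp hf (a1.pair a2)) (re_and (re_comp hg (a1.pair a3))
    (re_comp h (a2.pair (a3.pair (Computable.snd.comp .fst))))))).of_eq fun x => ⟨?_, fun e => ?_⟩
  · rintro ⟨y, h1, h2, h3⟩
    exact (congrArg₂ op h1 h2).trans h3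
  · obtain ⟨i, hi⟩ := P.1 (f x.1)
    obtain ⟨j, hj⟩ := P.1 (g x.1)
    exact ⟨(i, j), hi.symm, hj.symm, (congrArg₂ op hi hj).trans e⟩

theorem Pres.var {π : α → ℕ} (hπ : Computable π) : Rc ρ fun x => ρ (π x) := by
  obtain ⟨j, hj⟩ := P.1 0
  exact (re_comp P.2.1 ((hπ.comp .fst).pair ((Computable.const j).pair .snd))).of_eq fun x => by
    simp [hj]

theorem Pres.pol {Γ : Type} [Ctx R Γ] {f : Γ → R} (hf : Pol f) {π : Ctx.ι R Γ → α → ℕ}
    (hπ : ∀ j, Computable (π j)) : Rc ρ fun x => f ((cd R).symm fun j => ρ (π j x)) := by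
  induction hf with
  | const c =>
    obtain ⟨i, rfl⟩ := P.1 c
    exact P.var (.const i)
  | var j => simpa using P.var (hπ j)
  | add _ _ h1 h2 => exact P.op (op := (· + ·)) P.2.1 h1 h2
  | mul _ _ h1 h2 => exact P.op (op := (· * ·)) P.2.2 h1 h2

theorem Pres.re {σ : Type} [Finite σ] {S : (σ → R) → Prop} (h : Dio R S) {π : σ → α → ℕ}
    (hπ : ∀ s, Computable (π s)) : REPred fun a => S fun s => ρ (π s a) := by
  obtain ⟨Δ, _, κ, _, p, hp, hS⟩ := h
  obtain ⟨n, ⟨e⟩⟩ := Finite.exists_equiv_fin (Ctx.ι R Δ)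
  obtain ⟨j, hj⟩ := P.1 0
  have h1 := fun k => re_comp (P.pol (α := α × (Fin n → ℕ)) (pf_iff.1 (hp k))
    (π := Sum.elim (fun s x => π s.1 x.1) fun i x => x.2 (e i)) (by
      rintro (s | i)
      · exact (hπ s.1).comp .fst
      · exact Computable.fin_app.comp .snd (.const _))) (Computable.id.pair (.const j))
  refine (re_ex (re_all h1)).of_eq fun a => Iff.symm ((hS _).trans ⟨?_, ?_⟩)
  · rintro ⟨d, hd⟩
    choose c hc using P.1
    refine ⟨fun i => c (cd R d (e.symm i)), fun k => ?_⟩
    rw [hj, ← hd k]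
    refine congrArg (p k) ((Equiv.symm_apply_eq _).2 (funext fun i => ?_))
    rcases i with s | i
    · rfl
    · exact (hc _).trans (congrArg _ (e.symm_apply_apply i))
  · rintro ⟨z, hz⟩
    exact ⟨_, fun k => (hz k).trans hj⟩

end RE

variable (F : Type) [Field F] [Finite F]

theorem pres_poly : ∃ ρ : ℕ → F[X], Pres ρ := by
  classical
  have := Fintype.ofFinite F
  let _ : Primcodable F := .ofEquiv _ (Fintype.equivFin F)
  let ρ : List F → F[X] := fun l => ∑ k ∈ Finset.range l.length, monomial k (l.getD k 0)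
  have hc : ∀ l k, (ρ l).coeff k = l.getD k 0 := fun l k => by
    simp only [ρ, finsetSum_coeff, coeff_monomial, Finset.sum_ite_eq', Finset.mem_range]
    split_ifs with h
    · rfl
    · exact (List.getD_eq_default _ _ (not_lt.1 h)).symm
  have hd : ∀ l, (ρ l).natDegree ≤ l.length := fun l =>
    natDegree_le_iff_coeff_eq_zero.2 fun k hk => by rw [hc, List.getD_eq_default _ _ hk.le]
  have key : ∀ (f : List F × List F × List F → F[X]), (∀ x, (f x).natDegree ≤
      x.1.length + x.2.1.length) →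
      Primrec₂ (fun (k : ℕ) x => (f x).coeff k) → REPred fun x => f x = ρ x.2.2 := by
    intro f h1 h2
    have h3 : PrimrecRel fun (k : ℕ) (x : List F × List F × List F) =>
        (f x).coeff k = x.2.2.getD k 0 :=
      Primrec.eq.comp h2 ((Primrec.list_getD 0).comp
        (Primrec.snd.comp (Primrec.snd.comp .snd)) .fst)
    refine (h3.forall_mem_list.comp (Primrec.list_range.comp
      (Primrec.succ.comp (Primrec.nat_add.comp (Primrec.nat_add.comp (Primrec.list_length.comp .fst)
        (Primrec.list_length.comp (Primrec.fst.comp .snd)))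
        (Primrec.list_length.comp (Primrec.snd.comp .snd))))) .id).computablePred.to_re.of_eq
      fun x => ⟨fun h => ?_, fun h k _ => by rw [id, h, hc]⟩
    have := h1 x
    have := hd x.2.2
    exact (ext_iff_natDegree_le (n := x.1.length + x.2.1.length + x.2.2.length) (by omega)
      (by omega)).2 fun k hk =>
        (h k (List.mem_range.2 (Nat.lt_succ_of_le hk))).trans (hc _ _).symm
  have ha : Primrec₂ ((· + ·) : F → F → F) := Primrec.dom_finite _
  have hm : Primrec₂ ((· * ·) : F → F → F) := Primrec.dom_finite _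
  have hg := Primrec.list_getD (0 : F)
  refine Pres.nat (ρ := ρ) ⟨fun a => ⟨(List.range (a.natDegree + 1)).map a.coeff, ?_⟩,
    key _ (fun x => (natDegree_add_le _ _).trans (max_le ((hd _).trans (by omega))
      ((hd _).trans (by omega)))) ?_,
    key _ (fun x => natDegree_mul_le.trans (Nat.add_le_add (hd _) (hd _))) ?_⟩
  · ext k
    rw [hc]
    rcases le_or_gt k a.natDegree with h | h
    · simp [List.getD_eq_getElem?_getD, Nat.lt_succ_of_le h]
    · rw [List.getD_eq_default _ _ (by simpa using h), coeff_eq_zero_of_natDegree_lt h]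
  · exact (ha.comp (hg.comp (Primrec.fst.comp .snd) .fst)
      (hg.comp (Primrec.fst.comp (Primrec.snd.comp .snd)) .fst)).to₂.of_eq fun k x => by
        simp only [coeff_add, hc]
  · refine (Primrec.nat_rec' (Primrec.succ.comp .fst) (.const (0 : F))
      (h := fun (a : ℕ × List F × List F × List F) y =>
        y.2 + a.2.1.getD y.1 0 * a.2.2.1.getD (a.1 - y.1) 0)
      (ha.comp (Primrec.snd.comp .snd) (hm.comp
        (hg.comp (Primrec.fst.comp (Primrec.snd.comp .fst)) (Primrec.fst.comp .snd))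
        (hg.comp (Primrec.fst.comp (Primrec.snd.comp (Primrec.snd.comp .fst)))
          (Primrec.nat_sub.comp (Primrec.fst.comp .fst)
            (Primrec.fst.comp .snd))))).to₂).to₂.of_eq fun k x => ?_
    have : ∀ (g : ℕ → F) (m : ℕ), (m.rec 0 fun n y => y + g n : F) = ∑ n ∈ Finset.range m, g n :=
      fun g m => by
        induction m with
        | zero => rfl
        | succ m ih => rw [Finset.sum_range_succ, ← ih]
    rw [coeff_mul, Finset.Nat.sum_antidiagonal_eq_sum_range_succ_mk, ← this]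
    simp only [hc]

theorem pres_rat : ∃ ρ : ℕ → RatFunc F, Pres ρ := by
  obtain ⟨ρ, P⟩ := pres_poly F
  have hd : Dio (RatFunc F) fun x : RatFunc F × RatFunc F × RatFunc F => x.1 = x.2.1 / x.2.2 := by
    have : Dio (RatFunc F) fun x : RatFunc F × RatFunc F × RatFunc F =>
        (x.2.2 = 0 ∧ x.1 = 0) ∨ ∃ r, x.2.2 * r = 1 ∧ x.1 = x.2.1 * r := by
      refine .or (.and (.eq ?_ ?_) (.eq ?_ ?_)) (.ex (.and (.eq ?_ ?_) (.eq ?_ ?_))) <;> fun_prop
    refine this.congr fun x => ⟨fun h => ?_, ?_⟩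
    · rcases eq_or_ne x.2.2 0 with h0 | h0
      · exact .inl ⟨h0, by simp [h, h0]⟩
      · exact .inr ⟨_, mul_inv_cancel₀ h0, h.trans (div_eq_mul_inv _ _)⟩
    · rintro (⟨h, h'⟩ | ⟨r, h, h'⟩)
      · simp [h, h']
      · rw [h', eq_inv_of_mul_eq_one_right h, div_eq_mul_inv]
  let f := algebraMap F[X] (RatFunc F)
  have key : ∀ op : RatFunc F → RatFunc F → RatFunc F,
      PF (RatFunc F) (fun x : RatFunc F × RatFunc F => op x.1 x.2) →
      REPred fun x : (ℕ × ℕ) × (ℕ × ℕ) × ℕ × ℕ => op (f (ρ x.1.1) / f (ρ x.1.2))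
        (f (ρ x.2.1.1) / f (ρ x.2.1.2)) = f (ρ x.2.2.1) / f (ρ x.2.2.2) := by
    intro op hop
    have h1 : Dio (RatFunc F) fun v : Fin 6 → RatFunc F => ∃ y : RatFunc F × RatFunc F,
        y.1 = v 0 / v 1 ∧ y.2 = v 2 / v 3 ∧ op y.1 y.2 = v 4 / v 5 := by
      refine .ex (.and (hd.app3 (S := fun a b c => a = b / c) ?_ ?_ ?_)
        (.and (hd.app3 (S := fun a b c => a = b / c) ?_ ?_ ?_)
        (hd.app3 (S := fun a b c => a = b / c) (hop.comp ?_) ?_ ?_))) <;> fun_prop
    refine (P.re (Dio.down dio_ne h1) (π := ![fun x : (ℕ × ℕ) × (ℕ × ℕ) × ℕ × ℕ => x.1.1,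
      fun x => x.1.2, fun x => x.2.1.1, fun x => x.2.1.2, fun x => x.2.2.1, fun x => x.2.2.2])
      fun s => ?_).of_eq fun x => by simp [f]
    fin_cases s
    · exact Computable.fst.comp .fst
    · exact Computable.snd.comp .fst
    · exact Computable.fst.comp (Computable.fst.comp .snd)
    · exact Computable.snd.comp (Computable.fst.comp .snd)
    · exact Computable.fst.comp (Computable.snd.comp .snd)
    · exact Computable.snd.comp (Computable.snd.comp .snd)
  refine Pres.nat (ρ := fun x : ℕ × ℕ => f (ρ x.1) / f (ρ x.2))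
    ⟨fun y => ?_, key (· + ·) (by fun_prop), key (· * ·) (by fun_prop)⟩
  obtain ⟨i, hi⟩ := P.1 y.num
  obtain ⟨j, hj⟩ := P.1 y.denom
  exact ⟨(i, j), by simp only [hi, hj, f, RatFunc.num_div_denom]⟩

theorem pres_ext (K : Type) [Field K] [Algebra (RatFunc F) K] [FiniteDimensional (RatFunc F) K] :
    ∃ ρ : ℕ → K, Pres ρ := by
  obtain ⟨ρ, P⟩ := pres_rat F
  obtain ⟨d, ⟨b⟩⟩ : ∃ d, Nonempty (Module.Basis (Fin d) (RatFunc F) K) :=
    ⟨_, ⟨Module.finBasis _ _⟩⟩
  have key : ∀ S : (Fin 3 × Fin d → RatFunc F) → Prop, Dio (RatFunc F) S →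
      REPred fun x : (Fin d → ℕ) × (Fin d → ℕ) × (Fin d → ℕ) =>
        S fun s => ρ (![x.1, x.2.1, x.2.2] s.1 s.2) := by
    intro S h
    refine P.re h fun ⟨i, j⟩ => Computable.fin_app.comp ?_ (.const j)
    fin_cases i
    · exact .fst
    · exact Computable.fst.comp .snd
    · exact Computable.snd.comp .snd
  refine Pres.nat (ρ := fun x : Fin d → ℕ => ∑ j, ρ (x j) • b j) ⟨fun y => ?_,
    (key (fun v => ∀ l, v (0, l) + v (1, l) = v (2, l))
      (.all fun l => .eq (by fun_prop) (by fun_prop))).of_eq fun x => ?_,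
    (key (fun v => ∀ l, ∑ i, ∑ j, v (0, i) * v (1, j) * b.repr (b i * b j) l = v (2, l))
      (.all fun l => .eq (by fun_prop) (by fun_prop))).of_eq fun x => ?_⟩
  · choose c hc using P.1
    exact ⟨fun j => c (b.repr y j), by simp only [hc, b.sum_repr]⟩
  · rw [b.ext_elem_iff]
    simp [Finsupp.single_apply]
  · rw [b.ext_elem_iff]
    simp [Finsupp.single_apply, Finset.sum_mul_sum, mul_assoc, mul_left_comm]

end Pool.Agent.MP_a59382_lc.H18
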