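import Pool.Agent.MP_a59382_lc.H18.Kit

/-!
The polynomial ring is diophantine in a global function field.
-/

set_option autoImplicit false
set_option linter.unusedSectionVars false

namespace Pool.Agent.MP_a59382_lc.H18

open Polynomial WithZero Pool.Agent.MP_a59382_lc.H11
open scoped WithZero

variable {K : Type} [Field K]

theorem val_pow_sub (v : Valuation K ℤᵐ⁰) {a b : K} (ha : v a ≤ 1) (hb : v b ≤ 1)
    (h : v (a - b) < 1) (n : ℕ) : v (a ^ n - b ^ n) < 1 := by
  induction n with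
  | zero => simp
  | succ n ih =>
    rw [show a ^ (n + 1) - b ^ (n + 1) = (a ^ n - b ^ n) * a + (a - b) * b ^ n by ring]
    refine v.map_add_lt ?_ ?_
    · rw [map_mul]
      exact mul_lt_one_of_lt_of_le ih ha
    · rw [map_mul, map_pow]
      exact mul_lt_one_of_lt_of_le h (pow_le_one₀ zero_le hb)

/-- Well separated terms cannot cancel. -/
theorem separate (v : Valuation K ℤᵐ⁰) {t : K} (ht : 1 < v t) {J : Type} [Fintype J] {e : J → ℕ}
    (he : Function.Injective e) {B s : ℕ} (hs : 2 * B < s) {u : J → K}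
    (hu : ∀ j, v (u j) ≤ exp (B : ℤ) ∧ (u j ≠ 0 → exp (-(B : ℤ)) ≤ v (u j)))
    (h : ∑ j, u j * t ^ (s * e j) = 0) (j : J) : u j = 0 := by
  classical
  by_contra h0
  obtain ⟨j₀, h1, h2⟩ := (Finset.univ.filter fun j => u j ≠ 0).exists_max_image e ⟨j, by simpa⟩
  simp only [Finset.mem_filter, Finset.mem_univ, true_and] at h1 h2
  obtain ⟨n, hn, h3⟩ := ex_pole v ht
  have h4 : exp (-(B : ℤ) + (s * e j₀ : ℕ) * n) ≤ v (u j₀ * t ^ (s * e j₀)) := by
    rw [map_mul, map_pow, h3, pow_exp, exp_add]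
    exact mul_le_mul_left ((hu j₀).2 h1) _
  have h5 := v.map_sum_eq_of_lt (f := fun j => u j * t ^ (s * e j)) (Finset.mem_univ j₀)
    fun j hj => by
      refine lt_of_lt_of_le ?_ h4
      by_cases h6 : u j = 0
      · simp [h6, zero_lt_iff]
      have h7 : e j + 1 ≤ e j₀ :=
        lt_of_le_of_ne (h2 j h6) fun h => by simp [he h] at hj
      refine (val_mul_le v (hu j).1 (val_pow_le v h3.le _)).trans_lt (exp_lt_exp.2 ?_)
      have h8 : s * (e j + 1) * n ≤ s * e j₀ * n := by gcongr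
      have h9 : s ≤ s * n := Nat.le_mul_of_pos_right _ hn
      have : 2 * B + s * e j * n < s * e j₀ * n := by nlinarith
      have : (2 * B + s * e j * n : ℤ) < s * e j₀ * n := by exact_mod_cast this
      push_cast
      omega
  rw [h, map_zero] at h5
  exact absurd (h5 ▸ h4) (by simp)

variable {ι : Type} {val : ι → Valuation K ℤᵐ⁰} {t : K} {q : ℕ}

section

variable (S : Sys q t val)
include S

theorem bounds {L : Set K} (hL : L.Finite) : ∃ B : ℕ, ∀ g ∈ L, ∀ i,
    val i g ≤ exp (B : ℤ) ∧ (g ≠ 0 → exp (-(B : ℤ)) ≤ val i g) := by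
  obtain ⟨B, hB⟩ := S.bdd_below hL
  choose n hn using S.bdd
  obtain ⟨C, hC⟩ := (hL.image n).bddAbove
  refine ⟨B + C, fun g hg i => ⟨exp_mono (hn g i) ?_, fun h =>
    (exp_le_exp.2 (by omega)).trans (hB g hg h i)⟩⟩
  have : n g ≤ C := hC ⟨g, hg, rfl⟩
  omega

/-- The pole orders of `t` and a bound for the components. -/
theorem ex_exp_data : ∃ τ γ : ι → ℕ, {i | τ i + 2 * γ i ≠ 0}.Finite ∧
    (∀ i, val i t ≤ 1 → τ i = 0) ∧
    (∀ i, γ i = 0 → ∀ c, 0 < c → val i t ≤ 1 → exp (-1 : ℤ) ≤ val i (t ^ q ^ c - t)) ∧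
    ∀ (k : ℕ) (x : K), In val t x → (∀ i, 1 < val i t → val i x ≤ val i (t ^ q ^ k)) →
      ∃ (J : Type) (_ : Fintype J) (e : J → ℕ) (v : J → K), Function.Injective e ∧
        (∀ j, e j < q ^ k) ∧ (∀ j i, val i (v j) ≤ exp ((τ i + 2 * γ i : ℕ) : ℤ)) ∧
        x = ∑ j, v j ^ q ^ k * t ^ e j := by
  classical
  obtain ⟨γ, hγ, h⟩ := S.comp q 1 (pow_one q).symm
  have hq := S.two_le
  have : ∀ i, ∃ n : ℕ, (val i t ≤ 1 → n = 0) ∧ (1 < val i t → val i t = exp (n : ℤ)) := fun i => by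
    rcases le_or_gt (val i t) 1 with h | h
    · exact ⟨0, fun _ => rfl, fun h' => absurd h h'.not_ge⟩
    · obtain ⟨n, -, e⟩ := ex_pole _ h
      exact ⟨n, fun h' => absurd h' h.not_ge, fun _ => e⟩
  choose τ h1 h2 using this
  have key : ∀ (k : ℕ) (x : K), (∀ i, val i x ≤ exp ((q ^ k * τ i + 2 * γ i : ℕ) : ℤ)) →
      ∃ (J : Type) (_ : Fintype J) (e : J → ℕ) (v : J → K), Function.Injective e ∧
        (∀ j, e j < q ^ k) ∧ (∀ j i, val i (v j) ≤ exp ((τ i + 2 * γ i : ℕ) : ℤ)) ∧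
        x = ∑ j, v j ^ q ^ k * t ^ e j := by
    intro k
    induction k with
    | zero =>
      intro x hx
      exact ⟨Unit, inferInstance, fun _ => 0, fun _ => x, fun _ _ _ => rfl, by simp,
        fun _ i => by simpa using hx i, by simp⟩
    | succ k ih =>
      intro x hx
      obtain ⟨c, rfl⟩ := S.span q 1 (pow_one q).symm x
      choose J _ e v a1 a2 a3 a4 using fun d => ih (c d) fun i =>
        exp_mono (h i (q ^ k * τ i + γ i : ℕ) c (exp_mono (hx i) (by
          have : q ^ (k + 1) * τ i + 2 * γ i ≤ q * (q ^ k * τ i + γ i) := by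
            rw [pow_succ']
            nlinarith
          exact_mod_cast this)) d) (by push_cast; omega)
      refine ⟨Σ d, J d, inferInstance, fun j => j.1 + q * e j.1 j.2, fun j => v j.1 j.2, ?_,
        fun j => ?_, fun j => a3 _ _, ?_⟩
      · rintro ⟨d, j⟩ ⟨d', j'⟩ h
        have h3 := congrArg (· % q) h
        simp only [Nat.add_mul_mod_self_left, Nat.mod_eq_of_lt d.2, Nat.mod_eq_of_lt d'.2] at h3
        obtain rfl := Fin.ext h3
        obtain rfl := a1 d (Nat.eq_of_mul_eq_mul_left (by omega) (Nat.add_left_cancel h))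
        rfl
      · have := j.1.2
        have : q * (e j.1 j.2 + 1) ≤ q * q ^ k := Nat.mul_le_mul_left _ (a2 _ _)
        rw [pow_succ']
        rw [Nat.mul_succ] at this
        beta_reduce
        omega
      · rw [cs, Fintype.sum_sigma]
        refine Finset.sum_congr rfl fun d _ => ?_
        rw [a4 d, sum_pow' (by omega) (by simpa using S.frob 1), Finset.sum_mul]
        refine Finset.sum_congr rfl fun j _ => ?_
        rw [pow_succ, pow_mul]
        ring
  refine ⟨τ, γ, ((S.supp t S.t_ne).union hγ).subset fun i hi => ?_, h1, fun i hi c hc ht => ?_,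
    fun k x hx hx' => key k x fun i => ?_⟩
  · by_contra h
    simp only [Set.mem_union, Set.mem_ofPred_eq, not_or, not_not] at h
    simp [h1 i h.1.le, h.2] at hi
  · obtain ⟨c, rfl⟩ := Nat.exists_eq_succ_of_ne_zero hc.ne'
    by_contra hlt
    have e : (t ^ q ^ (c + 1) - t) ^ (q - 1) =
        cs q t fun d => (t ^ q ^ c) ^ (q - 1 - d) := by
      refine mul_right_cancel₀ (S.theta_ne c.succ_pos) ?_
      have := S.frob_sub 1 (t ^ q ^ (c + 1)) t
      rw [pow_one] at this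
      rw [← pow_succ, Nat.sub_add_cancel (by omega), this, ← neg_sub (t ^ q), ← neg_sub t,
        ← (Commute.all _ _).geom_sum₂_mul, mul_neg, cs, Finset.sum_range]
      congr 2
      refine Finset.sum_congr rfl fun d _ => ?_
      rw [pow_succ, pow_mul]
      ring
    have h3 : val i (t ^ q ^ (c + 1) - t) ≤ exp (-2 : ℤ) := by
      obtain ⟨m, hm⟩ := ex_exp (val i) (S.theta_ne c.succ_pos)
      rw [hm, exp_le_exp] at hlt ⊢
      omega
    have h4 := h i (-1) _ (e ▸ exp_mono (val_pow_le _ h3 _) (by omega)) ⟨q - 1, by omega⟩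
    rw [Nat.sub_self, pow_zero, map_one, ← exp_zero, exp_le_exp] at h4
    omega
  · rcases le_or_gt (val i t) 1 with h | h
    · exact (hx i h).trans (one_le_exp _)
    · exact exp_mono ((hx' i h).trans (val_pow_le _ (h2 i h).le _)) (by push_cast; omega)

end

variable {F : Type} [Field F] [Finite F] {φ : F[X] →+* K} (S : Sys (Nat.card F) t val)
  (ht : φ X = t)
include S ht

theorem dio_range : Dio K fun x : K => x ∈ φ.range := by
  classical
  obtain ⟨O, L, M⟩ := ex_kit S ht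
  obtain ⟨Φ, hΦ, f1, f2⟩ := ex_fr S ht M
  have hC := fun v => ex_C φ (v := v)
  obtain ⟨q, hq'⟩ : ∃ q, q = Nat.card F := ⟨_, rfl⟩
  rw [← hq'] at S f1 f2 hC
  obtain ⟨r, hr, hD⟩ := S.dio_pow
  obtain ⟨r', hr', hc⟩ := S.const_fix
  obtain ⟨τ, γ, g1, g2, g3, g4⟩ := ex_exp_data S
  obtain ⟨N₀, hN⟩ := S.theta_low
  have hq := S.two_le
  have hL := S.fin _ g1
  obtain ⟨B₁, b1⟩ := bounds S hL
  choose c hc' using S.span (q ^ B₁) B₁ rfl
  obtain ⟨B₂, b2⟩ := bounds S (hL.union (Set.finite_iUnion fun d => hL.image (c · d)))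
  obtain ⟨B₃, b3⟩ := bounds S (S.fin (fun i => γ i * (2 + N₀))
    (g1.subset fun i hi h => hi (by simp [show γ i = 0 by omega])))
  obtain ⟨j₀, hj⟩ : ∃ j₀, 2 * B₂ + B₁ + B₃ < q ^ j₀ := ⟨_, Nat.lt_pow_self hq⟩
  have hj' : q ^ j₀ ≤ q ^ (B₁ + j₀) := Nat.pow_le_pow_right (by omega) (by omega)
  have hD' := Dio.of_one (hD (r * r') (by positivity) (dvd_mul_right _ _) (· = 1 % (r * r')))
  have : Dio K fun x : K => ∃ T h s, Φ T x h ∧
      (∃ n, n % (r * r') = 1 % (r * r') ∧ T = t ^ q ^ n) ∧ O x ∧ O s ∧ h - x = s * (T - t) ∧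
      L ((x * t) ^ q ^ (B₁ + j₀)) T ∧ L (t ^ q ^ (B₁ + j₀)) T := by
    refine .ex (.ex (.ex (.and (hΦ.app3 ?_ ?_ ?_) (.and (hD'.comp ?_) (.and (M.dO.comp ?_)
      (.and (M.dO.comp ?_) (.and (.eq ?_ ?_) (.and (M.dL.app2 ?_ ?_) (M.dL.app2 ?_ ?_)))))))))
      <;> fun_prop
  refine this.congr fun x => ⟨?_, ?_⟩
  · rintro ⟨a, rfl⟩
    obtain ⟨n, h1, h2⟩ : ∃ n, n % (r * r') = 1 % (r * r') ∧
        q ^ (B₁ + j₀) * (a.natDegree + 1) < q ^ n := by
      refine ⟨1 + r * r' * (q ^ (B₁ + j₀) * (a.natDegree + 1)), Nat.add_mul_mod_self_left _ _ _,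
        lt_trans ?_ (Nat.lt_pow_self hq)⟩
      exact Nat.lt_one_add_iff.2 (Nat.le_mul_of_pos_left _ (by positivity))
    obtain ⟨s, hs⟩ := dvd_expand_sub (q ^ n) a
    rw [hq', ← pow_eq_expand, ← hq'] at hs
    have h3 : ∀ b : F[X], b.natDegree ≤ a.natDegree + 1 →
        L (φ b ^ q ^ (B₁ + j₀)) (t ^ q ^ n) := fun b hb => by
      rw [← ht, ← map_pow, ← map_pow]
      refine M.lP _ _ (degree_lt_degree ?_)
      rw [natDegree_pow, natDegree_X_pow]
      exact (Nat.mul_le_mul_left _ hb).trans_lt h2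
    refine ⟨_, _, φ s, f2 a n, ⟨n, h1, rfl⟩, M.oP _, M.oP _, ?_, ?_, ht ▸ h3 X (by simp)⟩
    · simpa [ht, mul_comm] using congrArg φ hs
    · simpa [ht] using h3 (a * X) (natDegree_mul_le.trans (by simp))
  rintro ⟨_, h, s, a1, ⟨n, hn, rfl⟩, a2, a3, a4, a5, a6⟩
  obtain ⟨n', e, rfl⟩ := f1 _ _ _ a1
  obtain rfl := Nat.pow_right_injective hq (tp_inj S e)
  have hlt := (Nat.pow_lt_pow_iff_right hq).1 (tp_lt S (M.lS _ _ a6))
  obtain ⟨k, hk⟩ : ∃ k, q ^ n = q ^ k * q ^ (B₁ + j₀) :=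
    ⟨n - (B₁ + j₀), by rw [← pow_add, Nat.sub_add_cancel hlt.le]⟩
  have hx := M.oI _ a2
  obtain ⟨J, _, e, v, e1, e2, e3, e4⟩ := g4 k x hx fun i hi => by
    have := M.lS _ _ a5 i hi
    rw [hk, pow_mul, map_pow, map_pow _ (t ^ _), map_mul] at this
    exact (le_mul_of_one_le_right' hi.le).trans (lt_of_pow_lt_pow_left₀ _ zero_le this).le
  have hsum := fun k => sum_pow' (S.pow_pos k).ne' (S.frob k) (Finset.univ : Finset J)
  have h1 : x ^ q ^ (B₁ + j₀) = ∑ j, v j ^ q ^ n * t ^ (q ^ (B₁ + j₀) * e j) := by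
    rw [e4, hsum, hk]
    exact Finset.sum_congr rfl fun j _ => by ring
  have hθ := S.theta_ne (c := n) (by omega)
  have h2 : ∑ j, v j * t ^ (q ^ (B₁ + j₀) * e j) = x ^ q ^ (B₁ + j₀) := by
    generalize hc₀ : q ^ (B₁ + j₀) = c₀ at *
    obtain ⟨y, hy⟩ : ∃ y, y = ∑ j, v j * t ^ (c₀ * e j) - x ^ c₀ := ⟨_, rfl⟩
    rw [← sub_eq_zero, ← hy]
    have k1 : ∀ i, 1 < val i t → val i (y / (t ^ q ^ n - t)) ≤ exp ((B₁ : ℤ) - c₀) := by
      intro i hi
      obtain ⟨m, hm, em⟩ := ex_pole _ hi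
      have e5 : ∀ l : ℕ, val i (t ^ l) = exp ((l : ℤ) * m) := fun l => by
        rw [map_pow, em, pow_exp]
      have k2 : val i (y * t ^ c₀) ≤ exp (B₁ + (q ^ n : ℕ) * m : ℤ) := by
        rw [hy, sub_mul, Finset.sum_mul, ← mul_pow]
        refine (val i).map_sub_le ((val i).map_sum_le fun j _ => ?_)
          (exp_mono ((M.lS _ _ a5 i hi).le.trans (e5 _).le) (by omega))
        rw [mul_assoc, ← pow_add]
        refine exp_mono (val_mul_le _ (b1 _ (e3 j) i).1 (e5 _).le) ?_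
        have : (c₀ * e j + c₀) * m ≤ q ^ n * m := by
          rw [hk, mul_comm _ c₀]
          exact Nat.mul_le_mul_right _ (Nat.mul_le_mul_left c₀ (e2 j))
        exact_mod_cast Nat.add_le_add_left this B₁
      rw [map_mul, e5, ← le_div_iff₀ (zero_lt_iff.2 exp_ne_zero), ← exp_sub] at k2
      rw [map_div₀, (val i).map_sub_eq_of_lt_left (by
        rw [map_pow]
        exact lt_self_pow₀ hi (Nat.one_lt_pow (by omega) hq)), e5,
        div_le_iff₀ (zero_lt_iff.2 exp_ne_zero), ← exp_add]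
      refine exp_mono k2 ?_
      have : (c₀ : ℤ) ≤ c₀ * m := by exact_mod_cast Nat.le_mul_of_pos_right _ hm
      omega
    have k2 : ∀ i, val i t ≤ 1 → val i (y / (t ^ q ^ n - t)) ≤ exp ((γ i * (2 + N₀) : ℕ) : ℤ) := by
      intro i hi
      have e5 : ∀ l : ℕ, val i (t ^ l) ≤ 1 := fun l => by
        rw [map_pow]
        exact pow_le_one₀ zero_le hi
      have k3 : val i y ≤ exp ((2 * γ i : ℕ) : ℤ) := by
        rw [hy]
        refine (val i).map_sub_le ((val i).map_sum_le fun j _ => ?_) ?_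
        · rw [map_mul]
          simpa [g2 i hi] using mul_le_mul' (e3 j i) (e5 _)
        · rw [map_pow]
          exact (pow_le_one₀ zero_le (hx i hi)).trans (one_le_exp _)
      rw [map_div₀, div_le_iff₀ (zero_lt_iff.2 ((val i).ne_zero_iff.2 hθ))]
      rcases Nat.eq_zero_or_pos (γ i) with h0 | h0
      · simp only [h0, mul_zero, zero_mul, Nat.cast_zero, exp_zero, one_mul] at k3 ⊢
        refine (le_or_gt 1 _).elim k3.trans fun k4 =>
          (le_exp_neg_one _ ?_).trans (g3 i h0 n (by omega) hi)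
        refine lt_of_pow_lt_pow_left₀ (q ^ n) zero_le ?_
        have : y ^ q ^ n = ∑ j, v j ^ q ^ n * ((t ^ q ^ n) ^ (c₀ * e j) - t ^ (c₀ * e j)) -
            ((x ^ q ^ n) ^ c₀ - x ^ c₀) := by
          simp only [mul_sub, Finset.sum_sub_distrib, ← h1]
          rw [hy, S.frob_sub, hsum, sub_sub_sub_cancel_right, pow_right_comm x]
          congr 1
          exact Finset.sum_congr rfl fun j _ => by ring
        rw [one_pow, ← map_pow, this]
        refine (val i).map_sub_lt ((val i).map_sum_lt one_ne_zero fun j _ => ?_)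
          (val_pow_sub _ ?_ (hx i hi) ?_ _)
        · rw [map_mul, map_pow, mul_comm]
          exact mul_lt_one_of_lt_of_le (val_pow_sub _ (e5 _) hi k4 _)
            (pow_le_one₀ zero_le (by simpa [g2 i hi, h0] using e3 j i))
        · rw [map_pow]
          exact pow_le_one₀ zero_le (hx i hi)
        · rw [a4, map_mul, mul_comm]
          exact mul_lt_one_of_lt_of_le k4 (M.oI _ a3 i hi)
      · refine k3.trans (le_trans ?_ (mul_le_mul_right (hN i n (by omega)) _))
        rw [← exp_add, exp_le_exp]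
        have : N₀ ≤ γ i * N₀ := Nat.le_mul_of_pos_left _ h0
        have : 2 * γ i + N₀ ≤ γ i * (2 + N₀) := by nlinarith
        omega
    by_contra h0
    obtain ⟨i, hi⟩ := ex_inf S
    have := ((b3 _ (fun i => (le_or_gt _ _).elim (k2 i) fun hi =>
      exp_mono (k1 i hi) (by omega)) i).2 (div_ne_zero h0 hθ)).trans (k1 i hi)
    rw [exp_le_exp] at this
    omega
  obtain ⟨i₀, hi₀⟩ := ex_inf S
  have h3 : ∀ j i, val i (v j) ≤ 1 := by
    intro j i
    have k1 : cs (q ^ B₁) t (fun d => ∑ j, c (v j) d * t ^ (q ^ j₀ * e j)) =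
        cs (q ^ B₁) t (Pi.single ⟨0, S.pow_pos _⟩ (x ^ q ^ j₀)) := by
      rw [cs_single, pow_zero, mul_one, ← pow_mul, ← pow_add, add_comm j₀, ← h2, cs]
      simp only [hsum, Finset.sum_mul]
      rw [Finset.sum_comm]
      refine Finset.sum_congr rfl fun j _ => ?_
      conv_rhs => rw [hc' (v j), cs, Finset.sum_mul]
      exact Finset.sum_congr rfl fun d _ => by ring
    have k2 : c (v j) = Pi.single ⟨0, S.pow_pos _⟩ (c (v j) ⟨0, S.pow_pos _⟩) := by
      funext d
      rcases eq_or_ne d ⟨0, S.pow_pos _⟩ with rfl | hd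
      · simp
      have := congrFun (S.cs_inj rfl k1) d
      rw [Pi.single_eq_of_ne hd] at this ⊢
      exact separate _ hi₀ e1 (by omega) (fun j => b2 _
        (.inr (Set.mem_iUnion.2 ⟨d, _, e3 j, rfl⟩)) i₀) this j
    have k3 := (b1 _ (e3 j) i).1
    rw [hc' (v j), k2, cs_single, pow_zero, mul_one, map_pow] at k3 ⊢
    refine pow_le_one₀ zero_le (not_lt.1 fun hlt => ?_)
    obtain ⟨m, hm, em⟩ := ex_pole _ hlt
    rw [em, pow_exp, exp_le_exp] at k3
    have k4 : q ^ B₁ * m ≤ B₁ := by exact_mod_cast k3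
    have := Nat.lt_pow_self (n := B₁) hq
    nlinarith
  have h4 : ∀ j, v j - v j ^ q ^ n = 0 := by
    refine separate _ hi₀ e1 (s := q ^ (B₁ + j₀)) (by omega) (fun j => b2 _ (.inl fun i =>
      ((val i).map_sub_le (h3 j i) ?_).trans (one_le_exp _)) i₀) ?_
    · rw [map_pow]
      exact pow_le_one₀ zero_le (h3 j i)
    · simp only [sub_mul, Finset.sum_sub_distrib, h2, ← h1, sub_self]
  rw [e4]
  refine sum_mem fun j _ => mul_mem (pow_mem ((hC _ ?_).elim fun a ha =>
    RingHom.mem_range.2 ⟨_, ha⟩) _) (pow_mem (RingHom.mem_range.2 ⟨_, ht⟩) _)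
  have := congrArg (· ^ q) (hc (n - 1) ((dvd_mul_left r' r).trans
    ((Nat.modEq_iff_dvd' (by omega)).1 hn.symm)) (v j) (h3 j))
  simp only [← pow_mul, ← pow_succ, Nat.sub_add_cancel (show 1 ≤ n by omega)] at this
  exact this.symm.trans (sub_eq_zero.1 (h4 j)).symm

omit S ht in
variable (F) in
theorem base : Base F := by
  obtain ⟨ι', val', -, S⟩ := exists_sys F (RatFunc F)
  obtain ⟨O, L, M⟩ := ex_kit S rfl
  obtain ⟨Φ, hΦ, f1, f2⟩ := ex_fr S rfl M
  have hi := phi_inj S rfl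
  constructor
  · have h1 : Dio (RatFunc F) fun v : Fin 3 → RatFunc F => Φ (v 0) (v 1) (v 2) := by
      refine hΦ.app3 ?_ ?_ ?_ <;> fun_prop
    refine ((Dio.down dio_ne h1).comp (f := fun x : F[X] × F[X] × F[X] => ![x.1, x.2.1, x.2.2])
      (.pi fun s => by fin_cases s <;> simp <;> fun_prop)).congr fun x => ⟨?_, fun h => ?_⟩
    · rintro ⟨n, h1, h2⟩
      simpa [h1, h2] using f2 x.2.1 n
    · obtain ⟨n, h1, h2⟩ := f1 _ _ _ h
      exact ⟨n, hi (by simpa using h1), hi (by simpa using h2)⟩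
  · have h1 : Dio (RatFunc F) fun v : Fin 2 → RatFunc F => L (v 0) (v 1) := by
      refine M.dL.app2 ?_ ?_ <;> fun_prop
    exact ((Dio.down dio_ne h1).comp (f := fun x : F[X] × F[X] => ![x.1, x.2])
      (.pi fun s => by fin_cases s <;> simp <;> fun_prop)).congr fun x =>
        ⟨M.lP _ _, fun h => deg_lt S rfl (M.lS _ _ h)⟩

end Pool.Agent.MP_a59382_lc.H18
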